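import Mathlib
import Pool.Agent.H548.TL.Prim

/-! Primitive integer vectors in the kernel of an integer matrix. -/

namespace Pool.Agent.H548.BK

open Finset Matrix
open Pool.Agent.H548.WM (ht bx mem_bx ht_le le_ht le_ht' exists_ht card_bx_le ht_pos Rep)
open Pool.Agent.H548.TC (Prim prim_ne prim_neg rep_or rep_neg sum_tail)

/-- The embedding matrix of the columns `J`. -/
def EJ (R : Type*) [CommRing R] {k N : ℕ} (J : Fin k → Fin N) : Matrix (Fin N) (Fin k) R :=
  Matrix.of fun i j => if J j = i then 1 else 0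

theorem mul_EJ {R : Type*} [CommRing R] {k N : ℕ} (A : Matrix (Fin k) (Fin N) R)
    (J : Fin k → Fin N) : A * EJ R J = A.submatrix id J := by
  ext i j
  simp [EJ, Matrix.mul_apply]

/-- The matrix whose columns are in the kernel of `A`. -/
def Zm {R : Type*} [CommRing R] {k N : ℕ} (A : Matrix (Fin k) (Fin N) R) (J : Fin k → Fin N) :
    Matrix (Fin N) (Fin N) R :=
  (A.submatrix id J).det • (1 : Matrix (Fin N) (Fin N) R) -
    EJ R J * ((A.submatrix id J).adjugate * A)

theorem mul_Zm {R : Type*} [CommRing R] {k N : ℕ} (A : Matrix (Fin k) (Fin N) R)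
    (J : Fin k → Fin N) : A * Zm A J = 0 := by
  unfold Zm
  rw [Matrix.mul_sub, ← Matrix.mul_assoc, mul_EJ, ← Matrix.mul_assoc, Matrix.mul_adjugate,
    Matrix.mul_smul, Matrix.mul_one, Matrix.smul_mul, Matrix.one_mul, sub_self]

theorem Zm_mulVec {R : Type*} [CommRing R] {k N : ℕ} (A : Matrix (Fin k) (Fin N) R)
    (J : Fin k → Fin N) {y : Fin N → R} (h : A *ᵥ y = 0) :
    Zm A J *ᵥ y = (A.submatrix id J).det • y := by
  unfold Zm
  rw [sub_mulVec, smul_mulVec, one_mulVec, ← mulVec_mulVec, ← mulVec_mulVec, h, mulVec_zero,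
    mulVec_zero, sub_zero]

theorem Zm_EJ {R : Type*} [CommRing R] {k N : ℕ} (A : Matrix (Fin k) (Fin N) R)
    (J : Fin k → Fin N) : Zm A J * EJ R J = 0 := by
  unfold Zm
  rw [Matrix.sub_mul, Matrix.mul_assoc, Matrix.mul_assoc, mul_EJ, Matrix.adjugate_mul,
    Matrix.smul_mul, Matrix.one_mul, Matrix.mul_smul, Matrix.mul_one, sub_self]

theorem inj_of_det {R : Type*} [CommRing R] [Nontrivial R] {k N : ℕ}
    {A : Matrix (Fin k) (Fin N) R} {J : Fin k → Fin N} (h : (A.submatrix id J).det ≠ 0) :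
    Function.Injective J := by
  intro i j hij
  by_contra hne
  apply h
  apply Matrix.det_zero_of_column_eq hne
  intro l
  simp [hij]

theorem Zm_off {k N : ℕ} (A : Matrix (Fin k) (Fin N) ℤ) (J : Fin k → Fin N) {i : Fin N}
    (hi : ∀ j, J j ≠ i) (c : Fin N) :
    Zm A J i c = if i = c then (A.submatrix id J).det else 0 := by
  unfold Zm
  rw [Matrix.sub_apply, Matrix.smul_apply, Matrix.one_apply, Matrix.mul_apply]
  have : ∀ j, EJ ℤ J i j = 0 := by
    intro j
    simp [EJ, hi j]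
  simp only [this, zero_mul, Finset.sum_const_zero, sub_zero, smul_eq_mul]
  split_ifs <;> simp

theorem Zm_on {k N : ℕ} (A : Matrix (Fin k) (Fin N) ℤ) (J : Fin k → Fin N)
    (hJ : Function.Injective J) (j : Fin k) {c : Fin N} (hc : ∀ j, J j ≠ c) :
    Zm A J (J j) c = -(A.submatrix id (Function.update J j c)).det := by
  unfold Zm
  rw [Matrix.sub_apply, Matrix.smul_apply, Matrix.one_apply, Matrix.mul_apply]
  have h1 : ∀ l, EJ ℤ J (J j) l = if l = j then 1 else 0 := by
    intro l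
    simp only [EJ, Matrix.of_apply, hJ.eq_iff]
  simp only [h1, ite_mul, one_mul, zero_mul, Finset.sum_ite_eq', mem_univ, if_true]
  rw [if_neg (hc j), smul_zero, zero_sub]
  congr 1
  have h2 : ((A.submatrix id J).adjugate * A) j c =
      ((A.submatrix id J).adjugate *ᵥ (fun i => A i c)) j := rfl
  rw [h2, ← Matrix.cramer_eq_adjugate_mulVec, Matrix.cramer_apply]
  congr 1
  ext a b
  rw [Matrix.updateCol_apply]
  simp only [Matrix.submatrix_apply, id, Function.update_apply]
  split_ifs <;> rfl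

/-- The kernel in a box. -/
noncomputable def KB {k N : ℕ} (A : Matrix (Fin k) (Fin N) ℤ) (R : ℕ) : Finset (Fin N → ℤ) := by
  classical
  exact (bx N R).filter fun y => A *ᵥ y = 0

theorem mem_KB {k N : ℕ} {A : Matrix (Fin k) (Fin N) ℤ} {R : ℕ} {y : Fin N → ℤ} :
    y ∈ KB A R ↔ ht y ≤ R ∧ A *ᵥ y = 0 := by
  simp only [KB, Finset.mem_filter, mem_bx]

theorem KB_mono {k N : ℕ} (A : Matrix (Fin k) (Fin N) ℤ) {R R' : ℕ} (h : R ≤ R') :
    KB A R ⊆ KB A R' := by
  intro x hx
  rw [mem_KB] at hx ⊢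
  exact ⟨hx.1.trans h, hx.2⟩

/-- Superadditivity. -/
theorem super {k N : ℕ} (A : Matrix (Fin k) (Fin N) ℤ) (J : Fin k → Fin N)
    (hΔ : (A.submatrix id J).det ≠ 0)
    (hmax : ∀ J' : Fin k → Fin N, (A.submatrix id J').det.natAbs ≤ (A.submatrix id J).det.natAbs)
    (ρ m R : ℕ) (hρ : (A.submatrix id J).det.natAbs ≤ ρ) (hR : (3 * N * m + 1) * ρ ≤ R) :
    (KB A ρ).card * m ^ (N - k) ≤ (KB A R).card := by
  classical
  have hJ := inj_of_det hΔ
  set δ := (A.submatrix id J).det with hδ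
  set Δ := δ.natAbs with hΔd
  have hΔ1 : 0 < Δ := Int.natAbs_pos.2 hΔ
  set q := 2 * ρ / Δ + 1 with hq
  have hq1 : 2 * ρ < q * Δ := by
    rw [hq, Nat.mul_comm (2 * ρ / Δ + 1) Δ]
    exact Nat.lt_mul_div_succ (2 * ρ) hΔ1
  have hq2 : q * Δ ≤ 3 * ρ := by
    rw [hq, add_mul, one_mul]
    have := Nat.div_mul_le_self (2 * ρ) Δ
    omega
  set ext : ({c : Fin N // ∀ j, J j ≠ c} → Fin m) → (Fin N → ℤ) := fun a c =>
    if h : ∀ j, J j ≠ c then ((a ⟨c, h⟩ : ℕ) : ℤ) else 0 with hext
  have hexta : ∀ a c, |ext a c| ≤ (m : ℤ) := by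
    intro a c
    rw [hext]
    simp only
    split_ifs with h
    · have := (a ⟨c, h⟩).2
      rw [Nat.abs_cast]
      exact_mod_cast this.le
    · simp
  have hZe : ∀ a i, |(Zm A J *ᵥ ext a) i| ≤ (N * (Δ * m) : ℕ) := by
    intro a i
    have e0 : (Zm A J *ᵥ ext a) i = ∑ c, Zm A J i c * ext a c := rfl
    rw [e0]
    calc |∑ c, Zm A J i c * ext a c| ≤ ∑ c, |Zm A J i c * ext a c| :=
          Finset.abs_sum_le_sum_abs _ _
      _ ≤ ∑ c : Fin N, ((Δ * m : ℕ) : ℤ) := by
          refine Finset.sum_le_sum fun c _ => ?_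
          rw [abs_mul]
          by_cases hc : ∀ j, J j ≠ c
          · have h1 : |Zm A J i c| ≤ (Δ : ℤ) := by
              by_cases hi : ∀ j, J j ≠ i
              · rw [Zm_off A J hi]
                split_ifs
                · rw [hΔd, Int.abs_eq_natAbs]
                · simp
              · push Not at hi
                obtain ⟨j, rfl⟩ := hi
                rw [Zm_on A J hJ j hc, abs_neg, Int.abs_eq_natAbs]
                exact_mod_cast hmax _
            push_cast
            exact mul_le_mul h1 (hexta a c) (abs_nonneg _) (by positivity)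
          · have : ext a c = 0 := by
              rw [hext]
              simp only
              rw [dif_neg hc]
            rw [this]
            simp only [abs_zero, mul_zero]
            positivity
      _ = _ := by
          rw [Finset.sum_const, card_univ, Fintype.card_fin]
          push_cast
          rw [nsmul_eq_mul]
  have hcardJ : Fintype.card {c : Fin N // ∀ j, J j ≠ c} = N - k := by
    have h1 : Fintype.card {c : Fin N // ¬ (c ∈ Set.range J)} = N - k := by
      rw [Fintype.card_subtype_compl]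
      have h2 : Fintype.card {c : Fin N // c ∈ Set.range J} = k := by
        have := Set.card_range_of_injective hJ
        rw [Fintype.card_fin] at this
        exact this
      rw [h2, Fintype.card_fin]
    rw [← h1]
    apply Fintype.card_congr
    apply Equiv.subtypeEquivRight
    intro c
    simp
  have hcard : (KB A ρ).card * m ^ (N - k) = ((KB A ρ) ×ˢ
      (univ : Finset ({c : Fin N // ∀ j, J j ≠ c} → Fin m))).card := by
    rw [card_product, card_univ, Fintype.card_fun, Fintype.card_fin, hcardJ]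
  rw [hcard]
  apply Finset.card_le_card_of_injOn (fun t => t.1 + (q : ℤ) • (Zm A J *ᵥ ext t.2))
  · rintro ⟨y, a⟩ hy
    rw [mem_coe, mem_product] at hy
    have hy1 := mem_KB.1 hy.1
    rw [mem_coe, mem_KB]
    refine ⟨?_, ?_⟩
    · apply ht_le
      intro i
      show |y i + (q : ℤ) * (Zm A J *ᵥ ext a) i| ≤ (R : ℤ)
      have e1 : |y i| ≤ (ρ : ℤ) := (le_ht' y i).trans (by exact_mod_cast hy1.1)
      have e2 := hZe a i
      calc |y i + (q : ℤ) * (Zm A J *ᵥ ext a) i| ≤ |y i| + |(q : ℤ) * (Zm A J *ᵥ ext a) i| :=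
            abs_add_le _ _
        _ ≤ (ρ : ℤ) + q * (N * (Δ * m) : ℕ) := by
            rw [abs_mul, Nat.abs_cast]
            gcongr
        _ = ((ρ + N * m * (q * Δ) : ℕ) : ℤ) := by
            push_cast
            ring
        _ ≤ (R : ℤ) := by
            have : ρ + N * m * (q * Δ) ≤ R := by
              calc ρ + N * m * (q * Δ) ≤ ρ + N * m * (3 * ρ) := by gcongr
                _ = (3 * N * m + 1) * ρ := by ring
                _ ≤ R := hR
            exact_mod_cast this
    · show A *ᵥ (y + (q : ℤ) • (Zm A J *ᵥ ext a)) = 0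
      rw [mulVec_add, hy1.2, mulVec_smul, mulVec_mulVec, mul_Zm, zero_mulVec, smul_zero, add_zero]
  · rintro ⟨y, a⟩ hy ⟨y', a'⟩ hy' heq
    rw [mem_coe, mem_product] at hy hy'
    have hy1 := (mem_KB.1 hy.1).1
    have hy1' := (mem_KB.1 hy'.1).1
    simp only at heq
    have hcoord : ∀ (b : {c : Fin N // ∀ j, J j ≠ c} → Fin m) (c : Fin N) (h : ∀ j, J j ≠ c),
        (Zm A J *ᵥ ext b) c = δ * ((b ⟨c, h⟩ : ℕ) : ℤ) := by
      intro b c h
      show ∑ l, Zm A J c l * ext b l = _
      simp only [Zm_off A J h, ite_mul, zero_mul, Finset.sum_ite_eq, mem_univ, if_true]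
      rw [hext]
      simp only
      rw [dif_pos h]
    have haa : a = a' := by
      funext ⟨c, h⟩
      have h1 := congrFun heq c
      simp only [Pi.add_apply, Pi.smul_apply, smul_eq_mul, hcoord _ c h] at h1
      have h2 : |y c| ≤ (ρ : ℤ) := (le_ht' y c).trans (by exact_mod_cast hy1)
      have h3 : |y' c| ≤ (ρ : ℤ) := (le_ht' y' c).trans (by exact_mod_cast hy1')
      apply Fin.ext
      by_contra hne
      have h4 : (1 : ℤ) ≤ |((a ⟨c, h⟩ : ℕ) : ℤ) - ((a' ⟨c, h⟩ : ℕ) : ℤ)| := by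
        apply Int.one_le_abs
        rw [sub_ne_zero]
        exact_mod_cast hne
      have h5 : (q : ℤ) * δ * (((a ⟨c, h⟩ : ℕ) : ℤ) - ((a' ⟨c, h⟩ : ℕ) : ℤ)) = y' c - y c := by
        linarith
      have h6 : |(q : ℤ) * δ * (((a ⟨c, h⟩ : ℕ) : ℤ) - ((a' ⟨c, h⟩ : ℕ) : ℤ))| =
          (q * Δ : ℕ) * |((a ⟨c, h⟩ : ℕ) : ℤ) - ((a' ⟨c, h⟩ : ℕ) : ℤ)| := by
        have hδΔ : |δ| = (Δ : ℤ) := by rw [hΔd, Int.abs_eq_natAbs]
        rw [abs_mul, abs_mul, Nat.abs_cast, hδΔ, Nat.cast_mul]
      rw [h5] at h6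
      have h7 : |y' c - y c| ≤ 2 * (ρ : ℤ) := by
        calc |y' c - y c| ≤ |y' c| + |y c| := abs_sub _ _
          _ ≤ 2 * (ρ : ℤ) := by linarith
      have h8 : (2 * (ρ : ℤ)) < ((q * Δ : ℕ) : ℤ) := by exact_mod_cast hq1
      have h9 : ((q * Δ : ℕ) : ℤ) ≤ (q * Δ : ℕ) *
          |((a ⟨c, h⟩ : ℕ) : ℤ) - ((a' ⟨c, h⟩ : ℕ) : ℤ)| := by
        nlinarith
      linarith
    subst haa
    have h1 : y = y' := by
      have := add_right_cancel heq
      exact this
    rw [h1]

end Pool.Agent.H548.BK
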