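import Mathlib
import Pool.Agent.H548.BK.Ker

/-! The number of the primitive integer vectors in the kernel of an integer matrix. -/

namespace Pool.Agent.H548.BK

open Finset Matrix
open Pool.Agent.H548.WM (ht bx mem_bx ht_le le_ht le_ht' exists_ht card_bx_le ht_pos Rep)
open Pool.Agent.H548.TC (Prim prim_ne prim_neg rep_or rep_neg sum_tail)

/-- Pigeonhole. -/
theorem many_ker {k N : ℕ} (hN : 1 ≤ N) (A : Matrix (Fin k) (Fin N) ℤ) {Z W : ℕ} (hZ : 1 ≤ Z)
    (hW : 1 ≤ W) (hA : ∀ i j, |A i j| ≤ (W : ℤ)) :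
    (Z : ℝ) ^ N ≤ (3 * N * W * Z) ^ k * (KB A Z).card := by
  classical
  set D : Finset (Fin N → ℤ) := Fintype.piFinset fun _ => Finset.Icc (0 : ℤ) Z with hD
  have hDc : D.card = (Z + 1) ^ N := by
    rw [hD, Fintype.card_piFinset]
    simp only [Int.card_Icc, prod_const, card_univ, Fintype.card_fin]
    congr 1
  set V : Finset (Fin k → ℤ) := Fintype.piFinset fun _ =>
    Finset.Icc (-(N * W * Z : ℕ) : ℤ) (N * W * Z : ℕ) with hV
  have hVc : V.card = (2 * (N * W * Z) + 1) ^ k := by
    rw [hV, Fintype.card_piFinset]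
    simp only [Int.card_Icc, prod_const, card_univ, Fintype.card_fin]
    have h1 : (((N * W * Z : ℕ) : ℤ) + 1 - -((N * W * Z : ℕ) : ℤ)) =
      ((2 * (N * W * Z) + 1 : ℕ) : ℤ) := by
      push_cast; ring
    rw [h1, Int.toNat_natCast]
  have hmaps : ∀ z ∈ D, A *ᵥ z ∈ V := by
    intro z hz
    rw [hD, Fintype.mem_piFinset] at hz
    have hzi : ∀ i, |z i| ≤ (Z : ℤ) := fun i => by
      have := mem_Icc.1 (hz i)
      rw [abs_of_nonneg this.1]
      exact this.2
    rw [hV, Fintype.mem_piFinset]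
    intro l
    rw [mem_Icc, ← abs_le]
    have e0 : (A *ᵥ z) l = ∑ i, A l i * z i := rfl
    rw [e0]
    calc |∑ i, A l i * z i| ≤ ∑ i, |A l i * z i| := Finset.abs_sum_le_sum_abs _ _
      _ ≤ ∑ i : Fin N, (W : ℤ) * Z := by
          refine Finset.sum_le_sum fun i _ => ?_
          rw [abs_mul]
          exact mul_le_mul (hA l i) (hzi i) (abs_nonneg _) (by positivity)
      _ = ((N * W * Z : ℕ) : ℤ) := by
          rw [Finset.sum_const, card_univ, Fintype.card_fin]
          push_cast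
          rw [nsmul_eq_mul]
          ring
  have hVne : V.Nonempty := ⟨A *ᵥ 0, hmaps 0 (by
    rw [hD, Fintype.mem_piFinset]
    intro i
    simp)⟩
  obtain ⟨v, hv, hmax⟩ := Finset.exists_max_image V
    (fun v => (D.filter fun z => A *ᵥ z = v).card) hVne
  have hle := Finset.card_le_mul_card_image_of_maps_to hmaps
    (D.filter fun z => A *ᵥ z = v).card hmax
  rw [hDc, hVc] at hle
  set E := D.filter fun z => A *ᵥ z = v with hE
  have hEne : E.Nonempty := by
    rw [← Finset.card_pos]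
    by_contra hc
    have : E.card = 0 := by omega
    rw [this] at hle
    have : 0 < (Z + 1) ^ N := by positivity
    omega
  obtain ⟨z₀, hz₀⟩ := hEne
  have hEK : E.card ≤ (KB A Z).card := by
    apply Finset.card_le_card_of_injOn (fun z => z - z₀)
    · intro x hx
      rw [mem_coe, hE, mem_filter, hD, Fintype.mem_piFinset] at hx
      rw [hE, mem_filter, hD, Fintype.mem_piFinset] at hz₀
      rw [mem_coe, mem_KB]
      refine ⟨?_, ?_⟩
      · apply ht_le
        intro i
        have a1 := mem_Icc.1 (hx.1 i)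
        have a2 := mem_Icc.1 (hz₀.1 i)
        show |x i - z₀ i| ≤ (Z : ℤ)
        rw [abs_le]
        constructor <;> linarith [a1.1, a1.2, a2.1, a2.2]
      · show A *ᵥ (x - z₀) = 0
        rw [mulVec_sub, hx.2, hz₀.2, sub_self]
    · intro x _ z _ h
      simpa using h
  have hle' : ((Z : ℝ) + 1) ^ N ≤ E.card * (2 * (N * W * Z) + 1) ^ k := by exact_mod_cast hle
  have hEK' : (E.card : ℝ) ≤ (KB A Z).card := by exact_mod_cast hEK
  have h1 : (1 : ℝ) ≤ N * W * Z := by
    have : 1 ≤ N * W * Z := Nat.one_le_iff_ne_zero.2 (by positivity)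
    exact_mod_cast this
  calc (Z : ℝ) ^ N ≤ ((Z : ℝ) + 1) ^ N := by gcongr; linarith
    _ ≤ E.card * (2 * (N * W * Z) + 1) ^ k := hle'
    _ ≤ (KB A Z).card * (3 * N * W * Z) ^ k := by
        gcongr
        linarith
    _ = _ := by ring

/-- A nonzero minor. -/
theorem exists_minor {k N : ℕ} {A : Matrix (Fin k) (Fin N) ℤ} (hA : LinearIndependent ℤ A.row) :
    ∃ J : Fin k → Fin N, (A.submatrix id J).det ≠ 0 := by
  set B : Matrix (Fin k) (Fin N) ℚ := A.map (Int.cast : ℤ → ℚ) with hB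
  have h1 : LinearIndependent ℚ B.row := by
    have := (linearIndependent_algebraMap_comp_iff (R := ℤ) (S := ℚ) (v := A.row)).2 hA
    exact this
  have h2 : B.rank = k := by
    have := LinearIndependent.rank_matrix h1
    rwa [Fintype.card_fin] at this
  have h3 := h2
  rw [Matrix.rank_eq_finrank_span_cols] at h3
  obtain ⟨f, hf, -, hli⟩ := Submodule.exists_fun_fin_finrank_span_eq ℚ (Set.range B.col)
  have hf' : ∀ s : Fin k, ∃ j, B.col j = f (Fin.cast h3.symm s) := fun s => hf _
  choose J hJ using hf'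
  refine ⟨J, ?_⟩
  have h4 : LinearIndependent ℚ (B.submatrix id J).col := by
    have h5 := hli.comp (Fin.cast h3.symm) (Fin.cast_injective _)
    have h6 : (B.submatrix id J).col = f ∘ (Fin.cast h3.symm) := by
      funext s
      exact hJ s
    rw [h6]
    exact h5
  have h5 : IsUnit (B.submatrix id J) := Matrix.linearIndependent_cols_iff_isUnit.1 h4
  have h6 : (B.submatrix id J).det ≠ 0 := ((Matrix.isUnit_iff_isUnit_det _).1 h5).ne_zero
  intro h0
  apply h6
  have h7 : (B.submatrix id J).det = ((A.submatrix id J).det : ℤ) := by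
    have : B.submatrix id J = (A.submatrix id J).map (Int.castRingHom ℚ) := rfl
    rw [this, ← RingHom.mapMatrix_apply, ← RingHom.map_det]
    rfl
  rw [h7, h0, Int.cast_zero]

/-- The primitive vectors. -/
noncomputable def KP {k N : ℕ} (A : Matrix (Fin k) (Fin N) ℤ) (R : ℕ) : Finset (Fin N → ℤ) := by
  classical
  exact (KB A R).filter fun z => Prim z

theorem mem_KP {k N : ℕ} {A : Matrix (Fin k) (Fin N) ℤ} {R : ℕ} {z : Fin N → ℤ} :
    z ∈ KP A R ↔ ht z ≤ R ∧ A *ᵥ z = 0 ∧ Prim z := by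
  simp only [KP, Finset.mem_filter, mem_KB]
  tauto

theorem KP_mono {k N : ℕ} {A : Matrix (Fin k) (Fin N) ℤ} {R R' : ℕ} (h : R ≤ R') :
    KP A R ⊆ KP A R' := by
  intro x hx
  rw [mem_KP] at hx ⊢
  exact ⟨hx.1.trans h, hx.2⟩

theorem cover {k N : ℕ} (hN : 0 < N) (A : Matrix (Fin k) (Fin N) ℤ) (Z : ℕ) :
    ((KB A Z).card : ℝ) ≤ 1 + ∑ d ∈ Finset.Icc 1 Z, ((KP A (Z / d)).card : ℝ) := by
  classical
  have hcov : KB A Z ⊆ {0} ∪ (Finset.Icc 1 Z).biUnion fun d => (KP A (Z / d)).image
      fun x k => (d : ℤ) * x k := by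
    intro x hx
    obtain ⟨hh, hI⟩ := mem_KB.1 hx
    rw [mem_union, mem_singleton]
    by_cases h0 : x = 0
    · left; exact h0
    right
    have hex : ∃ k, x k ≠ 0 := by
      by_contra hc
      push Not at hc
      exact h0 (funext hc)
    obtain ⟨g, u, hg, hu, hd⟩ := Pool.Agent.H548.WM.exists_gcd x hex
    choose z hz using hd
    have hgZ : (g : ℤ) ≠ 0 := by exact_mod_cast (by omega : g ≠ 0)
    have hxz : x = (g : ℤ) • z := by
      funext k
      rw [hz k]
      rfl
    have hzp : Prim z := by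
      refine ⟨u, ?_⟩
      have : (g : ℤ) * ∑ i, u i * z i = g * 1 := by
        calc (g : ℤ) * ∑ i, u i * z i = ∑ i, u i * x i := by
              rw [Finset.mul_sum]
              refine Finset.sum_congr rfl fun k _ => ?_
              rw [hz k]
              ring
          _ = g * 1 := by rw [hu, mul_one]
      exact mul_left_cancel₀ hgZ this
    have hzI : A *ᵥ z = 0 := by
      rw [hxz, mulVec_smul] at hI
      rcases smul_eq_zero.1 hI with h | h
      · exact absurd h hgZ
      · exact h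
    have hgz : g * ht z ≤ Z := by
      obtain ⟨k, hk⟩ := exists_ht hN z
      refine le_trans ?_ hh
      have h1 := le_ht' x k
      rw [hz k, abs_mul, hk, Nat.abs_cast] at h1
      exact_mod_cast h1
    have hz1 := ht_pos (prim_ne hzp)
    rw [mem_biUnion]
    refine ⟨g, ?_, ?_⟩
    · rw [mem_Icc]
      exact ⟨hg, le_trans (Nat.le_mul_of_pos_right _ hz1) hgz⟩
    · rw [mem_image]
      refine ⟨z, ?_, ?_⟩
      · rw [mem_KP]
        refine ⟨?_, hzI, hzp⟩
        rw [Nat.le_div_iff_mul_le (by omega)]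
        linarith
      · funext k
        rw [hz k]
  have h1 := Finset.card_le_card hcov
  have h2 := Finset.card_union_le {(0 : Fin N → ℤ)} ((Finset.Icc 1 Z).biUnion fun d =>
    (KP A (Z / d)).image fun x k => (d : ℤ) * x k)
  have h3 : ((Finset.Icc 1 Z).biUnion fun d =>
      (KP A (Z / d)).image fun x k => (d : ℤ) * x k).card ≤
      ∑ d ∈ Finset.Icc 1 Z, (KP A (Z / d)).card :=
    Finset.card_biUnion_le.trans (Finset.sum_le_sum fun d _ => Finset.card_image_le)
  rw [card_singleton] at h2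
  have h4 : (KB A Z).card ≤ 1 + ∑ d ∈ Finset.Icc 1 Z, (KP A (Z / d)).card := by omega
  exact_mod_cast h4

/-- The lower bound for the number of primitive vectors. -/
theorem prim_low {k N : ℕ} (hk : k + 2 ≤ N) : ∃ (c : ℝ) (E M : ℕ), 0 < c ∧ 1 ≤ E ∧
    ∀ (A : Matrix (Fin k) (Fin N) ℤ), LinearIndependent ℤ A.row → ∀ W R : ℕ, 1 ≤ W →
      (∀ i j, |A i j| ≤ (W : ℤ)) → E * W ^ M ≤ R →
      c * (R : ℝ) ^ (N - k) ≤ (W : ℝ) ^ k * (KP A R).card := by
  set D : ℕ := 144 * N ^ 2 with hD
  have hN1 : 1 ≤ N := by omega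
  have hN0 : (0 : ℝ) < N := by exact_mod_cast hN1
  have hN1' : (1 : ℝ) ≤ N := by exact_mod_cast hN1
  have hD1 : 1 ≤ D := by
    rw [hD]
    exact Nat.one_le_iff_ne_zero.2 (by positivity)
  have hD0 : (0 : ℝ) < D := by exact_mod_cast hD1
  set E : ℕ := 8 * (3 * k.factorial) ^ N * (3 * N) ^ k with hE
  have hE1 : 1 ≤ E := by
    rw [hE]
    exact Nat.one_le_iff_ne_zero.2 (by positivity)
  refine ⟨1 / (4 * D * (3 * N) ^ k), E, k * N + k, by positivity, hE1, ?_⟩
  intro A hA W R hW hAW hR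
  -- the maximal minor
  obtain ⟨J0, hJ0⟩ := exists_minor hA
  obtain ⟨J, -, hmax⟩ := Finset.exists_max_image (univ : Finset (Fin k → Fin N))
    (fun J => (A.submatrix id J).det.natAbs) ⟨J0, mem_univ _⟩
  have hmax' : ∀ J', (A.submatrix id J').det.natAbs ≤ (A.submatrix id J).det.natAbs :=
    fun J' => hmax J' (mem_univ _)
  have hΔ0 : (A.submatrix id J).det ≠ 0 := by
    intro h
    have := hmax' J0
    rw [h] at this
    have h2 := Int.natAbs_pos.2 hJ0
    simp at this
    omega
  set Δ := (A.submatrix id J).det.natAbs with hΔ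
  have hΔ1 : 1 ≤ Δ := Int.natAbs_pos.2 hΔ0
  have hΔW : Δ ≤ k.factorial * W ^ k := by
    have h1 := Matrix.det_le (A := A.submatrix id J) (abv := AbsoluteValue.abs) (x := (W : ℤ))
      (fun i j => hAW _ _)
    rw [Fintype.card_fin, nsmul_eq_mul] at h1
    have h2 : |(A.submatrix id J).det| ≤ (k.factorial : ℤ) * (W : ℤ) ^ k := h1
    rw [Int.abs_eq_natAbs] at h2
    exact_mod_cast h2
  have hR1 : 1 ≤ R := by
    refine le_trans ?_ hR
    exact Nat.one_le_iff_ne_zero.2 (by positivity)
  have hR' : (1 : ℝ) ≤ R := by exact_mod_cast hR1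
  have hR0 : (0 : ℝ) < R := by linarith
  have hW' : (1 : ℝ) ≤ W := by exact_mod_cast hW
  have hW0 : (0 : ℝ) < W := by linarith
  set n := ((KB A R).card : ℝ) with hn
  set P := ((KP A R).card : ℝ) with hP
  have hpig := many_ker hN1 A hR1 hW hAW
  rw [← hn] at hpig
  have hcov := cover (by omega) A R
  have hsplit := Finset.sum_filter_add_sum_filter_not (Finset.Icc 1 R) (fun d => D < d)
    (fun d => ((KP A (R / d)).card : ℝ))
  have hsmall : ∑ d ∈ (Finset.Icc 1 R).filter (fun d => ¬ D < d), ((KP A (R / d)).card : ℝ) ≤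
      D * P := by
    calc ∑ d ∈ (Finset.Icc 1 R).filter (fun d => ¬ D < d), ((KP A (R / d)).card : ℝ)
        ≤ ∑ d ∈ (Finset.Icc 1 R).filter (fun d => ¬ D < d), P := by
          refine Finset.sum_le_sum fun d _ => ?_
          rw [hP]
          exact_mod_cast Finset.card_le_card (KP_mono (Nat.div_le_self R d))
      _ = ((Finset.Icc 1 R).filter (fun d => ¬ D < d)).card * P := by
          rw [Finset.sum_const, nsmul_eq_mul]
      _ ≤ D * P := by
          have h1 : (Finset.Icc 1 R).filter (fun d => ¬ D < d) ⊆ Finset.Icc 1 D := by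
            intro d hd
            rw [mem_filter, mem_Icc] at hd
            rw [mem_Icc]
            omega
          have h2 := Finset.card_le_card h1
          rw [Nat.card_Icc, Nat.add_sub_cancel] at h2
          have h3 : (((Finset.Icc 1 R).filter (fun d => ¬ D < d)).card : ℝ) ≤ D := by
            exact_mod_cast h2
          gcongr
  have hlarge : ∑ d ∈ (Finset.Icc 1 R).filter (fun d => D < d), ((KP A (R / d)).card : ℝ) ≤
      R * (3 * Δ) ^ N + 36 * (N : ℝ) ^ 2 * n * (1 / D) := by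
    have h1 : ∀ d ∈ (Finset.Icc 1 R).filter (fun d => D < d), ((KP A (R / d)).card : ℝ) ≤
        (3 * (Δ : ℝ)) ^ N + 36 * (N : ℝ) ^ 2 * n * (1 / (d : ℝ) ^ 2) := by
      intro d hd
      rw [mem_filter, mem_Icc] at hd
      have hd1 : (1 : ℝ) ≤ d := by exact_mod_cast hd.1.1
      have hd0 : (0 : ℝ) < d := by linarith
      have hn0 : 0 ≤ n := by rw [hn]; positivity
      rcases le_or_gt Δ (R / d) with h | h
      · set m := (d - 1) / (3 * N) with hm
        have hmd : (3 * N * m + 1) * (R / d) ≤ R := by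
          have e1 : 3 * N * m ≤ d - 1 := Nat.mul_div_le _ _
          calc (3 * N * m + 1) * (R / d) ≤ d * (R / d) := by
                apply Nat.mul_le_mul_right
                omega
            _ ≤ R := Nat.mul_div_le R d
        have h2 := super A J hΔ0 hmax' (R / d) m R h hmd
        have h3 : d ≤ 6 * N * m := by
          have e1 : d - 1 < 3 * N * (m + 1) := Nat.lt_mul_div_succ _ (by positivity)
          have e2 : 144 * N ^ 2 < d := hd.2
          have e3 : 144 * N ≤ 144 * N ^ 2 := by nlinarith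
          have e4 : 3 * N * (m + 1) = 3 * N * m + 3 * N := by ring
          have e5 : 6 * N * m = 2 * (3 * N * m) := by ring
          omega
        have h3' : (d : ℝ) ≤ 6 * N * m := by exact_mod_cast h3
        have h4 : ((KP A (R / d)).card : ℝ) ≤ ((KB A (R / d)).card : ℝ) := by
          have : KP A (R / d) ⊆ KB A (R / d) := by
            intro z hz
            rw [mem_KP] at hz
            rw [mem_KB]
            exact ⟨hz.1, hz.2.1⟩
          exact_mod_cast card_le_card this
        have hm1 : 1 ≤ m := by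
          rcases Nat.eq_zero_or_pos m with h0 | h0
          · exfalso
            have h3'' : d ≤ 0 := by
              calc d ≤ 6 * N * m := h3
                _ = 0 := by rw [h0, Nat.mul_zero]
            have := hd.1.1
            omega
          · exact h0
        have hm1' : (1 : ℝ) ≤ m := by exact_mod_cast hm1
        have h5 : ((KB A (R / d)).card : ℝ) * (m : ℝ) ^ 2 ≤ n := by
          have e1 : (m : ℝ) ^ 2 ≤ (m : ℝ) ^ (N - k) := pow_le_pow_right₀ hm1' (by omega)
          have e2 : ((KB A (R / d)).card : ℝ) * (m : ℝ) ^ (N - k) ≤ n := by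
            rw [hn]
            exact_mod_cast h2
          calc ((KB A (R / d)).card : ℝ) * (m : ℝ) ^ 2 ≤
              ((KB A (R / d)).card : ℝ) * (m : ℝ) ^ (N - k) := by gcongr
            _ ≤ n := e2
        have h6 : ((KB A (R / d)).card : ℝ) ≤ 36 * (N : ℝ) ^ 2 * n * (1 / (d : ℝ) ^ 2) := by
          rw [mul_one_div, le_div_iff₀ (by positivity)]
          calc ((KB A (R / d)).card : ℝ) * (d : ℝ) ^ 2 ≤
              ((KB A (R / d)).card : ℝ) * (6 * N * m) ^ 2 := by gcongr
            _ = 36 * (N : ℝ) ^ 2 * (((KB A (R / d)).card : ℝ) * (m : ℝ) ^ 2) := by ring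
            _ ≤ 36 * (N : ℝ) ^ 2 * n := by gcongr
        have h7 : (0 : ℝ) ≤ (3 * (Δ : ℝ)) ^ N := by positivity
        linarith
      · have h2 : ((KP A (R / d)).card : ℝ) ≤ ((bx N Δ).card : ℝ) := by
          have : KP A (R / d) ⊆ bx N Δ := by
            intro z hz
            rw [mem_KP] at hz
            rw [mem_bx]
            omega
          exact_mod_cast card_le_card this
        have h3 := card_bx_le N hΔ1
        have h4 : (0 : ℝ) ≤ 36 * (N : ℝ) ^ 2 * n * (1 / (d : ℝ) ^ 2) := by positivity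
        linarith
    calc ∑ d ∈ (Finset.Icc 1 R).filter (fun d => D < d), ((KP A (R / d)).card : ℝ)
        ≤ ∑ d ∈ (Finset.Icc 1 R).filter (fun d => D < d),
            ((3 * (Δ : ℝ)) ^ N + 36 * (N : ℝ) ^ 2 * n * (1 / (d : ℝ) ^ 2)) :=
          Finset.sum_le_sum h1
      _ = ((Finset.Icc 1 R).filter (fun d => D < d)).card * (3 * (Δ : ℝ)) ^ N +
            36 * (N : ℝ) ^ 2 * n *
              ∑ d ∈ (Finset.Icc 1 R).filter (fun d => D < d), (1 / (d : ℝ) ^ 2) := by
          rw [Finset.sum_add_distrib, Finset.sum_const, ← Finset.mul_sum, nsmul_eq_mul]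
      _ ≤ _ := by
          have h2 : (((Finset.Icc 1 R).filter (fun d => D < d)).card : ℝ) ≤ R := by
            have := Finset.card_le_card (Finset.filter_subset (fun d => D < d) (Finset.Icc 1 R))
            rw [Nat.card_Icc, Nat.add_sub_cancel] at this
            exact_mod_cast this
          have h3 := sum_tail D R hD1
          gcongr
  -- the error terms
  have hDe : 36 * (N : ℝ) ^ 2 * n * (1 / D) = n / 4 := by
    have : ((D : ℕ) : ℝ) = 144 * (N : ℝ) ^ 2 := by
      rw [hD]
      push_cast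
      ring
    rw [this]
    field_simp
    ring
  have hpN : (R : ℝ) ^ N = (R : ℝ) ^ (N - k) * (R : ℝ) ^ k := by
    rw [← pow_add]
    congr 1
    omega
  have hlow : (R : ℝ) ^ (N - k) ≤ (3 * N * W) ^ k * n := by
    rw [hpN] at hpig
    have h1 : (R : ℝ) ^ (N - k) * (R : ℝ) ^ k ≤ ((3 * N * W) ^ k * n) * (R : ℝ) ^ k := by
      calc (R : ℝ) ^ (N - k) * (R : ℝ) ^ k ≤ (3 * N * W * R) ^ k * n := hpig
        _ = _ := by rw [mul_pow]; ring
    exact le_of_mul_le_mul_right h1 (by positivity)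
  have herr : 8 * (R * (3 * (Δ : ℝ)) ^ N) ≤ 2 * n := by
    have h1 : ((E : ℕ) : ℝ) * (W : ℝ) ^ (k * N + k) ≤ R := by exact_mod_cast hR
    have h2 : (3 * (Δ : ℝ)) ^ N ≤ (3 * k.factorial) ^ N * (W : ℝ) ^ (k * N) := by
      have : (Δ : ℝ) ≤ k.factorial * (W : ℝ) ^ k := by exact_mod_cast hΔW
      calc (3 * (Δ : ℝ)) ^ N ≤ (3 * (k.factorial * (W : ℝ) ^ k)) ^ N := by gcongr
        _ = _ := by
          rw [← mul_assoc, mul_pow (3 * (k.factorial : ℝ)), ← pow_mul]
    have h3 : 8 * (3 * (Δ : ℝ)) ^ N * (3 * N * W) ^ k ≤ R := by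
      calc 8 * (3 * (Δ : ℝ)) ^ N * (3 * N * W) ^ k ≤
          8 * ((3 * k.factorial) ^ N * (W : ℝ) ^ (k * N)) * (3 * N * W) ^ k := by gcongr
        _ = ((E : ℕ) : ℝ) * (W : ℝ) ^ (k * N + k) := by
            rw [hE, mul_pow (3 * (N : ℝ)), pow_add]
            push_cast
            ring
        _ ≤ R := h1
    have h4 : (R : ℝ) * R ≤ (3 * N * W) ^ k * n := by
      refine le_trans ?_ hlow
      calc (R : ℝ) * R = (R : ℝ) ^ 2 := by ring
        _ ≤ (R : ℝ) ^ (N - k) := pow_le_pow_right₀ hR' (by omega)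
    have h5 : (0 : ℝ) < (3 * N * W) ^ k := by positivity
    have h6 : (8 * (R * (3 * (Δ : ℝ)) ^ N)) * (3 * N * W) ^ k ≤ n * (3 * N * W) ^ k := by
      calc (8 * (R * (3 * (Δ : ℝ)) ^ N)) * (3 * N * W) ^ k =
          R * (8 * (3 * (Δ : ℝ)) ^ N * (3 * N * W) ^ k) := by ring
        _ ≤ R * R := by gcongr
        _ ≤ (3 * N * W) ^ k * n := h4
        _ = _ := by ring
    have h7 := le_of_mul_le_mul_right h6 h5
    have hn0 : 0 ≤ n := by rw [hn]; positivity
    linarith
  have hone : (1 : ℝ) ≤ R * (3 * (Δ : ℝ)) ^ N := by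
    have : (1 : ℝ) ≤ (3 * (Δ : ℝ)) ^ N := by
      apply one_le_pow₀
      have : (1 : ℝ) ≤ Δ := by exact_mod_cast hΔ1
      linarith
    nlinarith
  have hfin : n ≤ 4 * D * P := by
    rw [hDe] at hlarge
    have : n ≤ 1 + (R * (3 * (Δ : ℝ)) ^ N + n / 4 + D * P) := by linarith
    have hn0 : 0 ≤ n := by rw [hn]; positivity
    have h9 : R * (3 * (Δ : ℝ)) ^ N ≤ n / 4 := by linarith
    have h10 : 2 * (R * (3 * (Δ : ℝ)) ^ N) ≤ n / 2 := by linarith
    linarith
  rw [div_mul_eq_mul_div, one_mul, div_le_iff₀ (by positivity)]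
  calc (R : ℝ) ^ (N - k) ≤ (3 * N * W) ^ k * n := hlow
    _ ≤ (3 * N * W) ^ k * (4 * D * P) := by gcongr
    _ = _ := by
        rw [mul_pow]
        ring

end Pool.Agent.H548.BK
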