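import Mathlib
import Pool.Agent.H548.BK.Prim
import Pool.Agent.H548.TL.Ev
import Pool.Agent.H548.BL.Stm

/-! Generic points. -/

namespace Pool.Agent.H548.BK

open Finset Matrix
open Pool.Agent.H548.WM (ht bx mem_bx ht_le le_ht le_ht' exists_ht card_bx_le card_bx ht_pos Rep)
open Pool.Agent.H548.BL (rv cv Inc inc_iff_rv)
open Pool.Agent.H548.TL (evz evz_map evz_int deg_evz zerosQ)

open Classical in
/-- The number of the zeros of a polynomial in the kernel of a matrix. -/
theorem few_ker {k N : ℕ} (hk : k + 1 ≤ N) {A : Matrix (Fin k) (Fin N) ℤ} {J : Fin k → Fin N}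
    (hΔ : (A.submatrix id J).det ≠ 0) {P : MvPolynomial (Fin N) ℤ} {y0 : Fin N → ℤ}
    (h0 : A *ᵥ y0 = 0) (hP : evz P y0 ≠ 0) (Y : ℕ) (hY : 1 ≤ Y) :
    (((bx N Y).filter fun y => A *ᵥ y = 0 ∧ evz P y = 0).card : ℝ) ≤
      P.totalDegree * 6 ^ (N - 1) * (Y : ℝ) ^ (N - k - 1) := by
  have hJ := inj_of_det hΔ
  set δ := (A.submatrix id J).det with hδ
  have hδ' : (δ : ℚ) ≠ 0 := by exact_mod_cast hΔ
  set g : Fin N → MvPolynomial (Fin N) ℚ := fun i =>
    ∑ c, MvPolynomial.C (((Zm A J i c : ℤ) : ℚ) / δ) * MvPolynomial.X c with hg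
  have hdeg : ∀ i, (g i).totalDegree ≤ 1 := by
    intro i
    rw [hg]
    apply MvPolynomial.totalDegree_finsetSum_le
    intro j _
    refine (MvPolynomial.totalDegree_mul _ _).trans ?_
    rw [MvPolynomial.totalDegree_C, MvPolynomial.totalDegree_X]
  have hev : ∀ t y : Fin N → ℤ, Zm A J *ᵥ t = δ • y →
      MvPolynomial.eval (fun j => ((t j : ℤ) : ℚ)) (evz P g) = ((evz P y : ℤ) : ℚ) := by
    intro t y hty
    have e1 := evz_map (MvPolynomial.eval (fun j => ((t j : ℤ) : ℚ))) P g
    have e2 := evz_map (Int.castRingHom ℚ) P y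
    rw [e1]
    have e3 : ((evz P y : ℤ) : ℚ) = (Int.castRingHom ℚ) (evz P y) := rfl
    rw [e3, e2]
    congr 1
    funext i
    rw [hg]
    simp only [map_sum, map_mul, MvPolynomial.eval_C, MvPolynomial.eval_X]
    have e4 : ∑ c, Zm A J i c * t c = δ * y i := congrFun hty i
    have e5 : ∑ c, ((Zm A J i c : ℤ) : ℚ) * t c = δ * y i := by exact_mod_cast e4
    have e6 : ∑ c, ((Zm A J i c : ℤ) : ℚ) / δ * t c = (∑ c, ((Zm A J i c : ℤ) : ℚ) * t c) / δ := by
      rw [Finset.sum_div]
      refine Finset.sum_congr rfl fun j _ => ?_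
      ring
    rw [e6, e5, mul_div_cancel_left₀ _ hδ']
    rfl
  have hne : evz P g ≠ 0 := by
    intro h
    have h1 := hev y0 y0 (Zm_mulVec A J h0)
    rw [h, map_zero] at h1
    apply hP
    exact_mod_cast h1.symm
  have hkey : ∀ (y : Fin N → ℤ) (u : Fin k → ℤ), A *ᵥ y = 0 →
      Zm A J *ᵥ (y + EJ ℤ J *ᵥ u) = δ • y := by
    intro y u hy
    rw [mulVec_add, Zm_mulVec A J hy, mulVec_mulVec, Zm_EJ, zero_mulVec, add_zero]
  have h1 := zerosQ (by omega) hne (2 * Y) (by omega)
  have h2 : ((bx N Y).filter fun y => A *ᵥ y = 0 ∧ evz P y = 0).card * (bx k Y).card ≤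
      ((bx N (2 * Y)).filter fun x =>
        MvPolynomial.eval (fun i => (x i : ℚ)) (evz P g) = 0).card := by
    rw [← card_product]
    apply Finset.card_le_card_of_injOn
      (fun s : (Fin N → ℤ) × (Fin k → ℤ) => s.1 + EJ ℤ J *ᵥ s.2)
    · rintro ⟨y, u⟩ h
      rw [mem_coe, mem_product, mem_filter, mem_bx, mem_bx] at h
      obtain ⟨⟨a1, a2, a3⟩, a4⟩ := h
      simp only at a1 a2 a3 a4
      rw [mem_coe, mem_filter, mem_bx]
      refine ⟨?_, ?_⟩
      · apply ht_le
        intro i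
        show |y i + (EJ ℤ J *ᵥ u) i| ≤ ((2 * Y : ℕ) : ℤ)
        have e1 : |y i| ≤ (Y : ℤ) := (le_ht' y i).trans (by exact_mod_cast a1)
        have e2 : |(EJ ℤ J *ᵥ u) i| ≤ (Y : ℤ) := by
          have e3 : (EJ ℤ J *ᵥ u) i = ∑ j, (if J j = i then (1 : ℤ) else 0) * u j := rfl
          rw [e3]
          by_cases hi : ∃ j, J j = i
          · obtain ⟨j, rfl⟩ := hi
            simp only [hJ.eq_iff, ite_mul, one_mul, zero_mul, Finset.sum_ite_eq', mem_univ,
              if_true]
            exact (le_ht' u j).trans (by exact_mod_cast a4)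
          · push Not at hi
            have : ∑ j, (if J j = i then (1 : ℤ) else 0) * u j = 0 := by
              apply Finset.sum_eq_zero
              intro j _
              rw [if_neg (hi j), zero_mul]
            rw [this, abs_zero]
            positivity
        refine (abs_add_le _ _).trans ?_
        push_cast
        linarith
      · show MvPolynomial.eval (fun i => (((y + EJ ℤ J *ᵥ u) i : ℤ) : ℚ)) (evz P g) = 0
        rw [hev _ y (hkey y u a2), a3]
        simp
    · rintro ⟨y, u⟩ h ⟨y', u'⟩ h' heq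
      rw [mem_coe, mem_product, mem_filter] at h h'
      have a2 := h.1.2.1
      have a2' := h'.1.2.1
      simp only at a2 a2' heq
      have e1 := hkey y u a2
      rw [heq, hkey y' u' a2'] at e1
      have e2 : y' = y := by
        have := smul_right_injective (Fin N → ℤ) hΔ
        exact this e1
      subst e2
      have e3 : EJ ℤ J *ᵥ u = EJ ℤ J *ᵥ u' := add_left_cancel heq
      have e4 : u = u' := by
        funext j
        have := congrFun e3 (J j)
        have e5 : ∀ v : Fin k → ℤ, (EJ ℤ J *ᵥ v) (J j) = v j := by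
          intro v
          have e3 : (EJ ℤ J *ᵥ v) (J j) = ∑ l, (if J l = J j then (1 : ℤ) else 0) * v l := rfl
          rw [e3]
          simp only [hJ.eq_iff, ite_mul, one_mul, zero_mul, Finset.sum_ite_eq', mem_univ,
            if_true]
        rwa [e5, e5] at this
      rw [e4]
  have h3 := deg_evz P g hdeg
  set n := ((bx N Y).filter fun y => A *ᵥ y = 0 ∧ evz P y = 0).card with hn
  have hY' : (1 : ℝ) ≤ Y := by exact_mod_cast hY
  have hY0 : (0 : ℝ) < (Y : ℝ) ^ k := by positivity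
  have h4 : (n : ℝ) * (Y : ℝ) ^ k ≤ P.totalDegree * 6 ^ (N - 1) * (Y : ℝ) ^ (N - 1) := by
    calc (n : ℝ) * (Y : ℝ) ^ k ≤ n * ((bx k Y).card : ℝ) := by
          rw [card_bx]
          push_cast
          gcongr
          linarith
      _ ≤ (((bx N (2 * Y)).filter fun x =>
        MvPolynomial.eval (fun i => (x i : ℚ)) (evz P g) = 0).card : ℝ) := by exact_mod_cast h2
      _ ≤ (evz P g).totalDegree * (3 * ((2 * Y : ℕ) : ℝ)) ^ (N - 1) := h1
      _ ≤ P.totalDegree * (3 * ((2 * Y : ℕ) : ℝ)) ^ (N - 1) := by gcongr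
      _ = _ := by
        push_cast
        rw [← mul_assoc, mul_pow (3 * (2 : ℝ))]
        norm_num
        ring
  have h5 : (Y : ℝ) ^ (N - 1) = (Y : ℝ) ^ (N - k - 1) * (Y : ℝ) ^ k := by
    rw [← pow_add]
    congr 1
    omega
  rw [h5, ← mul_assoc] at h4
  exact le_of_mul_le_mul_right h4 hY0

/-- A nonzero minor, over a field. -/
theorem exists_minor' {K : Type*} [Field K] {k N : ℕ} {B : Matrix (Fin k) (Fin N) K}
    (h1 : LinearIndependent K B.row) : ∃ J : Fin k → Fin N, (B.submatrix id J).det ≠ 0 := by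
  have h2 : B.rank = k := by
    have := LinearIndependent.rank_matrix h1
    rwa [Fintype.card_fin] at this
  have h3 := h2
  rw [Matrix.rank_eq_finrank_span_cols] at h3
  obtain ⟨f, hf, -, hli⟩ := Submodule.exists_fun_fin_finrank_span_eq K (Set.range B.col)
  have hf' : ∀ s : Fin k, ∃ j, B.col j = f (Fin.cast h3.symm s) := fun s => hf _
  choose J hJ using hf'
  refine ⟨J, ?_⟩
  have h4 : LinearIndependent K (B.submatrix id J).col := by
    have h5 := hli.comp (Fin.cast h3.symm) (Fin.cast_injective _)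
    have h6 : (B.submatrix id J).col = f ∘ (Fin.cast h3.symm) := by
      funext s
      exact hJ s
    rw [h6]
    exact h5
  have h5 : IsUnit (B.submatrix id J) := Matrix.linearIndependent_cols_iff_isUnit.1 h4
  exact ((Matrix.isUnit_iff_isUnit_det _).1 h5).ne_zero

/-- The matrix of the linear forms `M i (x, ·)`. -/
def AM {R : Type*} [CommRing R] {k N : ℕ} (M : Fin k → Matrix (Fin N) (Fin N) ℤ)
    (x : Fin N → R) : Matrix (Fin k) (Fin N) R := Matrix.of (rv M x)

theorem AM_mulVec {R : Type*} [CommRing R] {k N : ℕ} {M : Fin k → Matrix (Fin N) (Fin N) ℤ}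
    {x y : Fin N → R} : AM M x *ᵥ y = 0 ↔ Inc M x y := by
  rw [inc_iff_rv]
  constructor
  · intro h i
    exact congrFun h i
  · intro h
    funext i
    exact h i

theorem AM_map {R S : Type*} [CommRing R] [CommRing S] {k N : ℕ}
    (M : Fin k → Matrix (Fin N) (Fin N) ℤ) (φ : R →+* S) (x : Fin N → R) :
    (AM M x).map φ = AM M (fun i => φ (x i)) := by
  ext i j
  show φ (∑ p, x p * ((M i p j : ℤ) : R)) = ∑ p, φ (x p) * ((M i p j : ℤ) : S)
  rw [map_sum]
  refine Finset.sum_congr rfl fun p _ => ?_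
  rw [map_mul, map_intCast]

theorem det_map {R S : Type*} [CommRing R] [CommRing S] {k N : ℕ}
    (A : Matrix (Fin k) (Fin N) R) (J : Fin k → Fin N) (φ : R →+* S) :
    φ (A.submatrix id J).det = ((A.map φ).submatrix id J).det := by
  rw [RingHom.map_det]
  rfl

theorem Zm_map {R S : Type*} [CommRing R] [CommRing S] {k N : ℕ}
    (A : Matrix (Fin k) (Fin N) R) (J : Fin k → Fin N) (φ : R →+* S) :
    (Zm A J).map φ = Zm (A.map φ) J := by
  have e1 : ((A.submatrix id J).adjugate).map φ = ((A.map φ).submatrix id J).adjugate := by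
    have := RingHom.map_adjugate φ (A.submatrix id J)
    exact this
  have e2 : (EJ R J).map φ = EJ S J := by
    ext i j
    simp only [EJ, Matrix.map_apply, Matrix.of_apply]
    split_ifs <;> simp
  have e3 : (EJ R J * ((A.submatrix id J).adjugate * A)).map φ =
      EJ S J * (((A.map φ).submatrix id J).adjugate * A.map φ) := by
    rw [Matrix.map_mul, Matrix.map_mul, e1, e2]
  ext i j
  have e4 := congrFun (congrFun e3 i) j
  rw [Matrix.map_apply] at e4
  unfold Zm
  rw [Matrix.map_apply, Matrix.sub_apply, Matrix.sub_apply, map_sub, e4, Matrix.smul_apply,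
    Matrix.smul_apply, smul_eq_mul, smul_eq_mul, map_mul, det_map, Matrix.one_apply,
    Matrix.one_apply]
  congr 2
  split_ifs <;> simp

/-- The pair of vectors as one vector. -/
def two {R : Type*} {α β : Type*} (x : α → R) (y : β → R) : α ⊕ β → R := Sum.elim x y

theorem two_map {R S : Type*} {α β : Type*} (φ : R → S) (x : α → R) (y : β → R) :
    (fun i => φ (two x y i)) = two (fun i => φ (x i)) (fun j => φ (y j)) := by
  funext i
  rcases i with i | i <;> rfl

/-- The polynomial in `x` and the parameters. -/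
noncomputable def HH {k N : ℕ} (M : Fin k → Matrix (Fin N) (Fin N) ℤ) (J : Fin k → Fin N)
    (G : MvPolynomial (Fin N ⊕ Fin N) ℤ) : MvPolynomial (Fin N ⊕ Fin N) ℤ :=
  ((AM M (fun i => MvPolynomial.X (Sum.inl i))).submatrix id J).det *
    evz G (two (fun i => MvPolynomial.X (Sum.inl i))
      (Zm (AM M (fun i => MvPolynomial.X (Sum.inl i))) J *ᵥ fun j => MvPolynomial.X (Sum.inr j)))

theorem evz_HH {R : Type*} [CommRing R] {k N : ℕ} (M : Fin k → Matrix (Fin N) (Fin N) ℤ)
    (J : Fin k → Fin N) (G : MvPolynomial (Fin N ⊕ Fin N) ℤ) (x t : Fin N → R) :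
    evz (HH M J G) (two x t) =
      ((AM M x).submatrix id J).det * evz G (two x (Zm (AM M x) J *ᵥ t)) := by
  set φ := MvPolynomial.eval₂Hom (Int.castRingHom R) (two x t) with hφ
  have h1 : evz (HH M J G) (two x t) = φ (HH M J G) := rfl
  rw [h1]
  unfold HH
  have e1 : ∀ v, φ (MvPolynomial.X v) = two x t v := fun v => MvPolynomial.eval₂Hom_X' _ _ _
  have e2 : (fun i => φ (MvPolynomial.X (Sum.inl i))) = x := by
    funext i
    rw [e1]
    rfl
  have e3 : (AM M (fun i => (MvPolynomial.X (Sum.inl i) : MvPolynomial (Fin N ⊕ Fin N) ℤ))).map φ =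
      AM M x := by
    rw [AM_map, e2]
  rw [map_mul, det_map, e3, evz_map, two_map, e2]
  congr 2
  have e4 : (fun j => φ ((Zm (AM M (fun i => (MvPolynomial.X (Sum.inl i) :
      MvPolynomial (Fin N ⊕ Fin N) ℤ))) J *ᵥ fun j => MvPolynomial.X (Sum.inr j)) j)) =
      Zm (AM M x) J *ᵥ t := by
    funext j
    rw [← e3, ← Zm_map]
    show φ (∑ c, _ * _) = ∑ c, φ _ * t c
    rw [map_sum]
    refine Finset.sum_congr rfl fun c _ => ?_
    rw [map_mul, e1]
    rfl
  rw [e4]

theorem indep_of_det {k N : ℕ} {A : Matrix (Fin k) (Fin N) ℤ} {J : Fin k → Fin N}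
    (h : (A.submatrix id J).det ≠ 0) : LinearIndependent ℤ A.row := by
  rw [Fintype.linearIndependent_iff]
  intro g hg
  have h1 : g ᵥ* (A.submatrix id J) = 0 := by
    funext j
    have := congrFun hg (J j)
    rw [Finset.sum_apply] at this
    exact this
  have h2 := Matrix.eq_zero_of_vecMul_eq_zero h h1
  intro i
  exact congrFun h2 i

/-- The generic `x`. -/
theorem gen {k N : ℕ} {M : Fin k → Matrix (Fin N) (Fin N) ℤ} {G : MvPolynomial (Fin N ⊕ Fin N) ℤ}
    (hG : ∃ x y : Fin N → ℂ, Inc M x y ∧ LinearIndependent ℂ (rv M x) ∧ evz G (two x y) ≠ 0) :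
    ∃ (f : MvPolynomial (Fin N) ℤ) (J : Fin k → Fin N), f ≠ 0 ∧
      ∀ x : Fin N → ℤ, MvPolynomial.eval x f ≠ 0 → ((AM M x).submatrix id J).det ≠ 0 ∧
        ∃ y0 : Fin N → ℤ, AM M x *ᵥ y0 = 0 ∧ evz G (two x y0) ≠ 0 := by
  obtain ⟨x, y, h0, hr, hGz⟩ := hG
  obtain ⟨J, hJ⟩ := exists_minor' (B := AM M x) hr
  have hH : HH M J G ≠ 0 := by
    intro h
    have h1 := evz_HH M J G x (((AM M x).submatrix id J).det⁻¹ • y)
    rw [h, mulVec_smul, Zm_mulVec _ J (AM_mulVec.2 h0), smul_smul, inv_mul_cancel₀ hJ,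
      one_smul] at h1
    have h2 : evz (0 : MvPolynomial (Fin N ⊕ Fin N) ℤ)
        (two x (((AM M x).submatrix id J).det⁻¹ • y)) = 0 := by
      unfold evz
      rw [MvPolynomial.eval₂_zero]
    rw [h2] at h1
    exact mul_ne_zero hJ hGz h1.symm
  obtain ⟨v, hv⟩ : ∃ v, MvPolynomial.eval v (HH M J G) ≠ 0 := by
    by_contra hcon
    push Not at hcon
    apply hH
    apply MvPolynomial.funext
    intro v
    rw [hcon v, map_zero]
  set x1 : Fin N → ℤ := fun i => v (Sum.inl i) with hx1
  set t1 : Fin N → ℤ := fun i => v (Sum.inr i) with ht1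
  have hvt : v = two x1 t1 := by
    funext i
    rcases i with i | i <;> rfl
  set f : MvPolynomial (Fin N) ℤ := evz (HH M J G) (two (fun i => MvPolynomial.X i)
    (fun p => MvPolynomial.C (t1 p))) with hf
  have hfe : ∀ x : Fin N → ℤ, MvPolynomial.eval x f = evz (HH M J G) (two x t1) := by
    intro x
    rw [hf, evz_map, two_map]
    simp only [MvPolynomial.eval_X, MvPolynomial.eval_C]
  refine ⟨f, J, ?_, ?_⟩
  · intro h0
    apply hv
    rw [hvt, ← evz_int, ← hfe, h0, map_zero]
  · intro x hx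
    rw [hfe, evz_HH] at hx
    refine ⟨left_ne_zero_of_mul hx, Zm (AM M x) J *ᵥ t1, ?_, right_ne_zero_of_mul hx⟩
    rw [mulVec_mulVec, mul_Zm, zero_mulVec]

open Classical in
/-- The number of the `y` over a generic `x` at which the polynomial vanishes. -/
theorem few_yG {k N : ℕ} (hk : k + 1 ≤ N) {M : Fin k → Matrix (Fin N) (Fin N) ℤ}
    (G : MvPolynomial (Fin N ⊕ Fin N) ℤ) {x : Fin N → ℤ} {J : Fin k → Fin N}
    (hΔ : ((AM M x).submatrix id J).det ≠ 0)
    (hz : ∃ y0 : Fin N → ℤ, AM M x *ᵥ y0 = 0 ∧ evz G (two x y0) ≠ 0)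
    (Y : ℕ) (hY : 1 ≤ Y) :
    (((bx N Y).filter fun y => AM M x *ᵥ y = 0 ∧ evz G (two x y) = 0).card : ℝ) ≤
      G.totalDegree * 6 ^ (N - 1) * (Y : ℝ) ^ (N - k - 1) := by
  obtain ⟨y0, h0, hy0⟩ := hz
  set P : MvPolynomial (Fin N) ℤ := evz G (two (fun i => MvPolynomial.C (x i))
    (fun k => MvPolynomial.X k)) with hP
  have hPe : ∀ y : Fin N → ℤ, evz P y = evz G (two x y) := by
    intro y
    rw [evz_int, hP, evz_map, two_map]
    simp only [MvPolynomial.eval_X, MvPolynomial.eval_C]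
  have hPd : P.totalDegree ≤ G.totalDegree := by
    apply deg_evz
    rintro (i | i)
    · show (MvPolynomial.C (x i) : MvPolynomial (Fin N) ℤ).totalDegree ≤ 1
      rw [MvPolynomial.totalDegree_C]
      norm_num
    · show (MvPolynomial.X i : MvPolynomial (Fin N) ℤ).totalDegree ≤ 1
      rw [MvPolynomial.totalDegree_X]
  have h1 := few_ker hk hΔ h0 (P := P) (by rw [hPe]; exact hy0) Y hY
  simp only [hPe] at h1
  refine h1.trans ?_
  gcongr

open Classical in
theorem KP_rep {k N : ℕ} (A : Matrix (Fin k) (Fin N) ℤ) (R : ℕ) :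
    (KP A R).card ≤ 2 * ((KP A R).filter Rep).card := by
  have hsub : KP A R ⊆ (KP A R).filter Rep ∪ ((KP A R).filter Rep).image fun v => -v := by
    intro v hv
    have hv' := mem_KP.1 hv
    rw [mem_union, mem_filter, mem_image]
    rcases TC.rep_or hv'.2.2 with h | h
    · exact Or.inl ⟨hv, h⟩
    · right
      refine ⟨-v, ?_, neg_neg v⟩
      rw [mem_filter, mem_KP]
      refine ⟨⟨?_, ?_, TC.prim_neg hv'.2.2⟩, h⟩
      · refine le_trans (le_of_eq ?_) hv'.1
        unfold ht
        congr 1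
        funext i
        simp
      · rw [mulVec_neg, hv'.2.1, neg_zero]
  have h1 := card_le_card hsub
  have h2 := card_union_le ((KP A R).filter Rep) (((KP A R).filter Rep).image fun v => -v)
  have h3 : (((KP A R).filter Rep).image fun v => -v).card ≤ ((KP A R).filter Rep).card :=
    card_image_le
  omega

end Pool.Agent.H548.BK
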