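import Mathlib
import Pool.Agent.H548.BK.Gen
import Pool.Agent.H548.BL.Core

/-! Many points in a box. -/

namespace Pool.Agent.H548.BK

open Finset Matrix
open Pool.Agent.H548.WM (ht bx mem_bx ht_le le_ht le_ht' exists_ht card_bx_le card_bx ht_pos Rep)
open Pool.Agent.H548.BL (rv cv Inc inc_iff_rv Smooth FinZeros bad card_bad)
open Pool.Agent.H548.TL (evz evz_map evz_int deg_evz zerosQ many_gen)
open Pool.Agent.H548.TC (Prim prim_ne prim_neg rep_or rep_neg)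

/-- The size of the coefficients. -/
def siz {k N : ℕ} (M : Fin k → Matrix (Fin N) (Fin N) ℤ) : ℕ :=
  ∑ i, ∑ j, ∑ p, (M i p j).natAbs + 1

theorem AM_le {k N : ℕ} (M : Fin k → Matrix (Fin N) (Fin N) ℤ) {x : Fin N → ℤ} {X : ℕ}
    (hx : ht x ≤ X) (i : Fin k) (j : Fin N) : |AM M x i j| ≤ ((siz M * X : ℕ) : ℤ) := by
  have e0 : AM M x i j = ∑ p, x p * M i p j := by
    show ∑ p, x p * ((M i p j : ℤ) : ℤ) = _
    simp
  rw [e0]
  have h1 : |∑ p, x p * M i p j| ≤ ∑ p, (X : ℤ) * |M i p j| := by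
    refine (Finset.abs_sum_le_sum_abs _ _).trans (Finset.sum_le_sum fun p _ => ?_)
    rw [abs_mul]
    have e1 : |x p| ≤ (X : ℤ) := (le_ht' x p).trans (by exact_mod_cast hx)
    exact mul_le_mul_of_nonneg_right e1 (abs_nonneg _)
  refine h1.trans ?_
  have h2 : ∑ p, (X : ℤ) * |M i p j| = ((∑ p, (M i p j).natAbs) * X : ℕ) := by
    push_cast
    rw [Finset.sum_mul]
    refine Finset.sum_congr rfl fun p _ => ?_
    ring
  rw [h2]
  have h3 : ∑ p, (M i p j).natAbs ≤ siz M := by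
    unfold siz
    calc ∑ p, (M i p j).natAbs ≤ ∑ j, ∑ p, (M i p j).natAbs :=
          Finset.single_le_sum (f := fun j => ∑ p, (M i p j).natAbs)
            (fun _ _ => Nat.zero_le _) (mem_univ j)
      _ ≤ ∑ i, ∑ j, ∑ p, (M i p j).natAbs :=
          Finset.single_le_sum (f := fun i => ∑ j, ∑ p, (M i p j).natAbs)
            (fun _ _ => Nat.zero_le _) (mem_univ i)
      _ ≤ _ := Nat.le_succ _
  have h4 : (∑ p, (M i p j).natAbs) * X ≤ siz M * X := Nat.mul_le_mul_right _ h3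
  exact_mod_cast h4

/-- The points of `U` at which a polynomial does not vanish. -/
def InV {R : Type*} [CommRing R] {k N : ℕ} (M : Fin k → Matrix (Fin N) (Fin N) ℤ)
    (G : MvPolynomial (Fin N ⊕ Fin N) ℤ) (x y : Fin N → R) : Prop :=
  Inc M x y ∧ LinearIndependent R (rv M x) ∧ LinearIndependent R (cv M y) ∧ evz G (two x y) ≠ 0

open Classical in
/-- Many `y` over a generic `x`. -/
theorem good_y {k N : ℕ} (hk2 : k + 2 ≤ N)
    {M : Fin k → Matrix (Fin N) (Fin N) ℤ} (G : MvPolynomial (Fin N ⊕ Fin N) ℤ)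
    (hGc : ∀ x y : Fin N → ℤ, evz G (two x y) ≠ 0 → LinearIndependent ℤ (cv M y)) :
    ∃ (c : ℝ) (E m : ℕ), 0 < c ∧ 1 ≤ E ∧
    ∀ (x : Fin N → ℤ) (J : Fin k → Fin N), ((AM M x).submatrix id J).det ≠ 0 →
      (∃ y0 : Fin N → ℤ, AM M x *ᵥ y0 = 0 ∧ evz G (two x y0) ≠ 0) →
      ∀ W Y : ℕ, 1 ≤ W → (∀ i j, |AM M x i j| ≤ (W : ℤ)) → E * W ^ m ≤ Y →
        c * (Y : ℝ) ^ (N - k) ≤ (W : ℝ) ^ k * ((bx N Y).filter fun y => Rep y ∧ InV M G x y).card := by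
  obtain ⟨c, E, m, hc, hE, h⟩ := prim_low (k := k) (N := N) hk2
  set κ : ℝ := G.totalDegree * 6 ^ (N - 1) with hκ
  have hκ0 : 0 ≤ κ := by positivity
  obtain ⟨E2, hE2⟩ := exists_nat_ge (4 * κ / c)
  refine ⟨c / 4, E + E2, m + k, by positivity, by omega, ?_⟩
  intro x J hΔ hz W Y hW hA hY
  have hW' : (1 : ℝ) ≤ W := by exact_mod_cast hW
  have hWmk : W ^ m ≤ W ^ (m + k) := Nat.pow_le_pow_right hW (by omega)
  have hWk : W ^ k ≤ W ^ (m + k) := Nat.pow_le_pow_right hW (by omega)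
  have hYE : E * W ^ m ≤ Y := by
    calc E * W ^ m ≤ (E + E2) * W ^ (m + k) := Nat.mul_le_mul (Nat.le_add_right _ _) hWmk
      _ ≤ Y := hY
  have hYE2 : E2 * W ^ k ≤ Y := by
    calc E2 * W ^ k ≤ (E + E2) * W ^ (m + k) := Nat.mul_le_mul (Nat.le_add_left _ _) hWk
      _ ≤ Y := hY
  have hY1 : 1 ≤ Y := by
    refine le_trans ?_ hYE
    exact Nat.one_le_iff_ne_zero.2 (by positivity)
  have hY' : (1 : ℝ) ≤ Y := by exact_mod_cast hY1
  have hli := indep_of_det hΔ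
  have h1 := h (AM M x) hli W Y hW hA hYE
  set F := (bx N Y).filter fun y => Rep y ∧ InV M G x y with hF
  set b2 := (bx N Y).filter fun y => AM M x *ᵥ y = 0 ∧ evz G (two x y) = 0 with hb2
  have hsub : (KP (AM M x) Y).filter Rep ⊆ F ∪ b2 := by
    intro y hy
    rw [mem_filter, mem_KP] at hy
    obtain ⟨⟨hy1, hy2, hy3⟩, hy4⟩ := hy
    rw [mem_union, hF, hb2, mem_filter, mem_filter, mem_bx]
    by_cases e2 : evz G (two x y) = 0
    · exact Or.inr ⟨hy1, hy2, e2⟩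
    · exact Or.inl ⟨hy1, hy4, AM_mulVec.1 hy2, hli, hGc x y e2, e2⟩
  have h2 := card_le_card hsub
  have h2' := card_union_le F b2
  have h3 := KP_rep (AM M x) Y
  have h5 := few_yG (by omega) G hΔ hz Y hY1
  rw [← hb2] at h5
  have h6 : (KP (AM M x) Y).card ≤ 2 * (F.card + b2.card) := by omega
  have h7 : ((KP (AM M x) Y).card : ℝ) ≤ 2 * (F.card + b2.card) := by
    exact_mod_cast h6
  have h8 : c * (Y : ℝ) ^ (N - k) ≤ (W : ℝ) ^ k * (2 * (F.card + b2.card)) :=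
    h1.trans (by gcongr)
  have h9 : (W : ℝ) ^ k * (2 * b2.card) ≤ c / 2 * (Y : ℝ) ^ (N - k) := by
    have e1 : (Y : ℝ) ^ (N - k) = (Y : ℝ) ^ (N - k - 1) * Y := by
      rw [← pow_succ]
      congr 1
      omega
    have e2 : 4 * κ ≤ c * (E2 : ℝ) := by
      rw [div_le_iff₀ hc] at hE2
      linarith
    have e3 : (E2 : ℝ) * (W : ℝ) ^ k ≤ Y := by exact_mod_cast hYE2
    calc (W : ℝ) ^ k * (2 * b2.card) ≤
          (W : ℝ) ^ k * (2 * (κ * (Y : ℝ) ^ (N - k - 1))) := by gcongr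
      _ = (4 * κ) / 2 * ((W : ℝ) ^ k * (Y : ℝ) ^ (N - k - 1)) := by ring
      _ ≤ (c * (E2 : ℝ)) / 2 * ((W : ℝ) ^ k * (Y : ℝ) ^ (N - k - 1)) := by gcongr
      _ = c / 2 * ((Y : ℝ) ^ (N - k - 1) * (E2 * (W : ℝ) ^ k)) := by ring
      _ ≤ c / 2 * ((Y : ℝ) ^ (N - k - 1) * Y) := by gcongr
      _ = c / 2 * (Y : ℝ) ^ (N - k) := by rw [e1]
  have h10 : (W : ℝ) ^ k * (2 * (F.card + b2.card)) =
      2 * ((W : ℝ) ^ k * F.card) + (W : ℝ) ^ k * (2 * b2.card) := by ring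
  rw [h10] at h8
  linarith

open Classical in
/-- Many points in a dyadic box. -/
theorem box_low {k N : ℕ} (hk : 1 ≤ k) (hk2 : k + 2 ≤ N)
    {M : Fin k → Matrix (Fin N) (Fin N) ℤ}
    {G : MvPolynomial (Fin N ⊕ Fin N) ℤ} (hG : ∃ x y : Fin N → ℂ, InV M G x y)
    (hGc : ∀ x y : Fin N → ℤ, evz G (two x y) ≠ 0 → LinearIndependent ℤ (cv M y)) :
    ∃ (c : ℝ) (K E m : ℕ), 0 < c ∧ 1 ≤ E ∧ ∀ X Y : ℕ, K ≤ X → E * X ^ m ≤ Y →
      ∃ P : Finset ((Fin N → ℤ) × (Fin N → ℤ)),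
        (∀ t ∈ P, Rep t.1 ∧ Rep t.2 ∧ InV M G t.1 t.2 ∧
          ht t.1 ≤ X ∧ X < 2 * ht t.1 ∧ ht t.2 ≤ Y) ∧
        c * ((X : ℝ) ^ (N - k) * (Y : ℝ) ^ (N - k)) ≤ P.card := by
  obtain ⟨f, J, hf0, hfx⟩ := gen (M := M) (G := G) (by
    obtain ⟨x, y, h1, h2, h3, h4⟩ := hG
    exact ⟨x, y, h1, h2, h4⟩)
  obtain ⟨cx, Kx, hcx, hx⟩ := many_gen (by omega) hf0
  obtain ⟨cy, Ey, m, hcy, hEy, hy⟩ := good_y hk2 G hGc
  set C0 := siz M with hC0
  have hC01 : 1 ≤ C0 := by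
    rw [hC0]
    unfold siz
    omega
  have hC0' : (0 : ℝ) < C0 := by exact_mod_cast hC01
  refine ⟨cx * cy / C0 ^ k, Kx + 1, Ey * C0 ^ m, m, by positivity,
    Nat.one_le_iff_ne_zero.2 (by positivity), ?_⟩
  intro X Y hX hY
  obtain ⟨SX, hSX, hSXc⟩ := hx X (by omega)
  have hX1 : 1 ≤ X := by omega
  have hX' : (0 : ℝ) < X := by exact_mod_cast hX1
  set F : (Fin N → ℤ) → Finset (Fin N → ℤ) := fun x =>
    (bx N Y).filter fun y => Rep y ∧ InV M G x y with hF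
  set P := (SX ×ˢ (bx N Y)).filter fun t => Rep t.2 ∧ InV M G t.1 t.2 with hP
  refine ⟨P, ?_, ?_⟩
  · intro t ht'
    rw [hP, mem_filter, mem_product, mem_bx] at ht'
    obtain ⟨⟨a1, a2⟩, a3, a4⟩ := ht'
    obtain ⟨b1, b2, b3, -⟩ := hSX _ a1
    exact ⟨b1, a3, a4, b2, b3, a2⟩
  · have hcard : P.card = ∑ x ∈ SX, (F x).card := by
      rw [hP, card_filter, sum_product]
      refine Finset.sum_congr rfl fun x _ => ?_
      rw [hF, card_filter]
    set V : ℝ := cy * (Y : ℝ) ^ (N - k) / (C0 * X) ^ k with hV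
    have hfib : ∀ x ∈ SX, V ≤ ((F x).card : ℝ) := by
      intro x hx
      obtain ⟨-, b2, -, b4⟩ := hSX x hx
      obtain ⟨hΔ, hz⟩ := hfx x b4
      have h4 := hy x J hΔ hz (C0 * X) Y (Nat.one_le_iff_ne_zero.2 (by positivity))
        (AM_le M b2) (by
        calc Ey * (C0 * X) ^ m = Ey * C0 ^ m * X ^ m := by ring
          _ ≤ Y := hY)
      rw [hV, div_le_iff₀ (by positivity)]
      push_cast at h4
      calc cy * (Y : ℝ) ^ (N - k) ≤ _ := h4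
        _ = _ := by
          rw [hF]
          ring
    calc cx * cy / C0 ^ k * ((X : ℝ) ^ (N - k) * (Y : ℝ) ^ (N - k)) = (cx * (X : ℝ) ^ N) * V := by
          have e1 : (X : ℝ) ^ N = (X : ℝ) ^ (N - k) * (X : ℝ) ^ k := by
            rw [← pow_add]
            congr 1
            omega
          rw [hV, e1, mul_pow]
          field_simp
      _ ≤ (SX.card : ℝ) * V := by gcongr
      _ = ∑ x ∈ SX, V := by rw [Finset.sum_const, nsmul_eq_mul]
      _ ≤ ∑ x ∈ SX, ((F x).card : ℝ) := Finset.sum_le_sum hfib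
      _ = (P.card : ℝ) := by rw [hcard]; push_cast; rfl

end Pool.Agent.H548.BK
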