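import Mathlib
import Pool.Agent.H548.BK.BoxLow
import Pool.Agent.H548.TL.Low

/-! The lower bound. -/

namespace Pool.Agent.H548.BK

open Finset Matrix
open Pool.Agent.H548.WM (ht bx mem_bx ht_le le_ht le_ht' exists_ht card_bx_le ht_pos Rep)
open Pool.Agent.H548.BL (rv cv Inc inc_iff_rv Smooth FinZeros tr rv_tr)
open Pool.Agent.H548.TL (evz root)

/-- The lower bound for integral heights. -/
theorem lower_nat {k N : ℕ} (hk : 1 ≤ k) (hk2 : k + 2 ≤ N)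
    {M : Fin k → Matrix (Fin N) (Fin N) ℤ}
    {G : MvPolynomial (Fin N ⊕ Fin N) ℤ} (hG : ∃ x y : Fin N → ℂ, InV M G x y)
    (hGc : ∀ x y : Fin N → ℤ, evz G (two x y) ≠ 0 → LinearIndependent ℤ (cv M y)) :
    ∃ (c : ℝ) (L₀ : ℕ), 0 < c ∧ 1 ≤ L₀ ∧ ∀ B : ℕ, L₀ ≤ Nat.log 2 B →
    ∃ P : Finset ((Fin N → ℤ) × (Fin N → ℤ)),
      (∀ t ∈ P, Rep t.1 ∧ Rep t.2 ∧ InV M G t.1 t.2 ∧
        (ht t.1 : ℝ) ^ (N - k) * (ht t.2 : ℝ) ^ (N - k) ≤ B) ∧
      c * (B * (Nat.log 2 B : ℝ)) ≤ P.card := by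
  classical
  obtain ⟨c, K, E, m, hc, hE, h⟩ := box_low hk hk2 hG hGc
  set e := N - k with he
  have he1 : 1 ≤ e := by omega
  set s := m * e + e with hsdef
  set Q := 2 * s with hQ
  have hQ0 : 0 < Q := by omega
  have hQ' : (0 : ℝ) < Q := by exact_mod_cast hQ0
  refine ⟨c / 2 ^ e / (2 * Q), 2 * Q * K + 2 * E ^ e + 1, by positivity, by omega, ?_⟩
  intro B hB
  set L := Nat.log 2 B with hL
  have hB0 : B ≠ 0 := by
    rintro rfl
    simp at hL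
    omega
  have hLB : 2 ^ L ≤ B := Nat.pow_log_le_self 2 hB0
  have hB0' : (0 : ℝ) < B := by exact_mod_cast Nat.pos_of_ne_zero hB0
  set J := Finset.Icc K (L / Q) with hJ
  -- the scales
  have hZ : ∀ i ∈ J, ∃ Z : ℕ, E * (2 ^ i) ^ m ≤ Z ∧
      ((2 ^ i : ℕ) : ℝ) ^ e * (Z : ℝ) ^ e ≤ B ∧
      (B : ℝ) / 2 ^ e ≤ ((2 ^ i : ℕ) : ℝ) ^ e * (Z : ℝ) ^ e := by
    intro i hi
    rw [hJ, mem_Icc] at hi
    set D : ℝ := ((2 ^ i : ℕ) : ℝ) ^ e with hD
    have hD0 : 0 < D := by positivity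
    have hnat : (E * (2 ^ i) ^ m) ^ e * (2 ^ i) ^ e ≤ B := by
      have k1 : E ^ e ≤ 2 ^ (L / 2) := by
        calc E ^ e ≤ 2 ^ (E ^ e) := Nat.lt_two_pow_self.le
          _ ≤ 2 ^ (L / 2) := Nat.pow_le_pow_right (by norm_num) (by omega)
      have k2 : (2 : ℕ) ^ (s * i) ≤ 2 ^ (L / 2) := by
        apply Nat.pow_le_pow_right (by norm_num)
        have e1 : s * i ≤ s * (L / Q) := Nat.mul_le_mul_left _ hi.2
        have e4 : s * (L / Q) * 2 ≤ L := by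
          calc s * (L / Q) * 2 = Q * (L / Q) := by rw [hQ]; ring
            _ ≤ L := Nat.mul_div_le L Q
        omega
      calc (E * (2 ^ i) ^ m) ^ e * (2 ^ i) ^ e = E ^ e * 2 ^ (s * i) := by
            rw [mul_pow, ← pow_mul, ← pow_mul, ← pow_mul, mul_assoc, ← pow_add, hsdef]
            ring_nf
        _ ≤ 2 ^ (L / 2) * 2 ^ (L / 2) := Nat.mul_le_mul k1 k2
        _ = 2 ^ (L / 2 + L / 2) := by rw [pow_add]
        _ ≤ 2 ^ L := Nat.pow_le_pow_right (by norm_num) (by omega)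
        _ ≤ B := hLB
    have hq : ((E * (2 ^ i) ^ m : ℕ) : ℝ) ^ e ≤ B / D := by
      rw [le_div_iff₀ hD0, hD]
      exact_mod_cast hnat
    obtain ⟨Z, hZ1, hZ2, hZ3⟩ := root (B / D) e _ he1
      (Nat.one_le_iff_ne_zero.2 (by positivity)) hq
    refine ⟨Z, hZ1, ?_, ?_⟩
    · rw [le_div_iff₀ hD0] at hZ2
      linarith
    · rw [div_le_iff₀ hD0] at hZ3
      rw [div_le_iff₀ (by positivity)]
      linarith
  have hKj : ∀ j ∈ J, K ≤ 2 ^ j := by
    intro j hj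
    rw [hJ, mem_Icc] at hj
    exact (hj.1.trans (Nat.lt_two_pow_self).le)
  have hPx : ∀ i ∈ J, ∃ P : Finset ((Fin N → ℤ) × (Fin N → ℤ)),
      (∀ t ∈ P, Rep t.1 ∧ Rep t.2 ∧ InV M G t.1 t.2 ∧
        (ht t.1 : ℝ) ^ e * (ht t.2 : ℝ) ^ e ≤ B ∧
        ht t.1 ≤ 2 ^ i ∧ 2 ^ i < 2 * ht t.1) ∧
      c / 2 ^ e * B ≤ P.card := by
    intro i hi
    obtain ⟨Z, hZ1, hZ2, hZ3⟩ := hZ i hi
    obtain ⟨P, hP, hPc⟩ := h (2 ^ i) Z (hKj i hi) hZ1
    refine ⟨P, ?_, ?_⟩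
    · intro t ht'
      obtain ⟨a1, a2, a3, a4, a5, a6⟩ := hP t ht'
      refine ⟨a1, a2, a3, ?_, a4, a5⟩
      refine le_trans ?_ hZ2
      have b1 : (ht t.1 : ℝ) ≤ ((2 ^ i : ℕ) : ℝ) := by exact_mod_cast a4
      have b3 : (ht t.2 : ℝ) ≤ (Z : ℝ) := by exact_mod_cast a6
      gcongr
    · refine le_trans ?_ hPc
      calc c / 2 ^ e * B = c * (B / 2 ^ e) := by ring
        _ ≤ _ := by gcongr
  choose! Pj hPj hPc using hPx
  set P := J.biUnion Pj with hP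
  refine ⟨P, ?_, ?_⟩
  · intro t ht'
    rw [hP, mem_biUnion] at ht'
    obtain ⟨p, hp, htp⟩ := ht'
    obtain ⟨a1, a2, a3, a4, -⟩ := hPj p hp t htp
    exact ⟨a1, a2, a3, a4⟩
  · have huniq : ∀ (i i' n : ℕ), n ≤ 2 ^ i → 2 ^ i < 2 * n → n ≤ 2 ^ i' → 2 ^ i' < 2 * n →
        i = i' := by
      have key : ∀ (i i' n : ℕ), n ≤ 2 ^ i → 2 ^ i' < 2 * n → ¬ i < i' := by
        intro i i' n e1 e2 hlt
        have h8 : 2 ^ (i + 1) ≤ 2 ^ i' := Nat.pow_le_pow_right (by norm_num) hlt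
        rw [pow_succ] at h8
        omega
      intro i i' n e1 e2 e3 e4
      have k1 := key i i' n e1 e4
      have k2 := key i' i n e3 e2
      omega
    have hdisj : ∀ p ∈ J, ∀ p' ∈ J, p ≠ p' → Disjoint (Pj p) (Pj p') := by
      intro p hp p' hp' hne
      rw [Finset.disjoint_left]
      intro t ht1 ht2
      obtain ⟨-, -, -, -, c1, c2⟩ := hPj p hp t ht1
      obtain ⟨-, -, -, -, d1, d2⟩ := hPj p' hp' t ht2
      exact hne (huniq _ _ _ c1 c2 d1 d2)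
    have hcard : P.card = ∑ p ∈ J, (Pj p).card := by
      rw [hP, Finset.card_biUnion hdisj]
    have hJc : (L : ℝ) / (2 * Q) ≤ (J.card : ℝ) := by
      rw [hJ, Nat.card_Icc, div_le_iff₀ (by positivity)]
      have e1 : L < Q * (L / Q + 1) := Nat.lt_mul_div_succ L hQ0
      have e2 : 2 * Q * K ≤ L := by omega
      set u := L / Q with hu
      have e3 : K ≤ u + 1 := by
        by_contra hcon
        push Not at hcon
        have : Q * (u + 1) ≤ Q * K := Nat.mul_le_mul_left _ hcon.le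
        have e5 : 2 * Q * K = Q * K + Q * K := by ring
        omega
      rw [Nat.cast_sub e3]
      have e1' : (L : ℝ) < Q * (u + 1) := by exact_mod_cast e1
      have e2' : 2 * (Q : ℝ) * K ≤ L := by exact_mod_cast e2
      push_cast
      nlinarith
    calc c / 2 ^ e / (2 * Q) * (B * (L : ℝ)) = (L : ℝ) / (2 * Q) * (c / 2 ^ e * B) := by
          field_simp
      _ ≤ (J.card : ℝ) * (c / 2 ^ e * B) := by gcongr
      _ = ∑ p ∈ J, c / 2 ^ e * (B : ℝ) := by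
          rw [Finset.sum_const, nsmul_eq_mul]
      _ ≤ ∑ p ∈ J, ((Pj p).card : ℝ) := Finset.sum_le_sum hPc
      _ = (P.card : ℝ) := by rw [hcard]; push_cast; rfl

/-- A minor of the matrix of the `M i y` as a polynomial. -/
noncomputable def mc {k N : ℕ} (M : Fin k → Matrix (Fin N) (Fin N) ℤ) (J : Fin k → Fin N) :
    MvPolynomial (Fin N ⊕ Fin N) ℤ :=
  ((AM (tr M) (fun i => MvPolynomial.X (Sum.inr i))).submatrix id J).det

theorem evz_mc {R : Type*} [CommRing R] {k N : ℕ} (M : Fin k → Matrix (Fin N) (Fin N) ℤ)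
    (J : Fin k → Fin N) (x y : Fin N → R) :
    evz (mc M J) (two x y) = ((AM (tr M) y).submatrix id J).det := by
  set φ := MvPolynomial.eval₂Hom (Int.castRingHom R) (two x y) with hφ
  have h1 : evz (mc M J) (two x y) = φ (mc M J) := rfl
  have e1 : ∀ v, φ (MvPolynomial.X v) = two x y v := fun v => MvPolynomial.eval₂Hom_X' _ _ _
  have e2 : (fun i => φ (MvPolynomial.X (Sum.inr i))) = y := by
    funext i
    rw [e1]
    rfl
  rw [h1]
  unfold mc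
  rw [det_map, AM_map, e2]

theorem evz_mul {R σ : Type*} [CommRing R] (p q : MvPolynomial σ ℤ) (v : σ → R) :
    evz (p * q) v = evz p v * evz q v := by
  unfold evz
  rw [MvPolynomial.eval₂_mul]

/-- The lower bound. -/
theorem lower {k N : ℕ} (hk : 1 ≤ k) (hk2 : k + 2 ≤ N)
    {M : Fin k → Matrix (Fin N) (Fin N) ℤ}
    {G : MvPolynomial (Fin N ⊕ Fin N) ℤ} (hG : ∃ x y : Fin N → ℂ, InV M G x y) :
    ∃ c X₀ : ℝ, 0 < c ∧ 1 ≤ X₀ ∧ ∀ X : ℝ, X₀ ≤ X →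
    ∃ P : Finset ((Fin N → ℤ) × (Fin N → ℤ)),
      (∀ t ∈ P, Rep t.1 ∧ Rep t.2 ∧ InV M G t.1 t.2 ∧
        (ht t.1 : ℝ) ^ (N - k) * (ht t.2 : ℝ) ^ (N - k) ≤ X) ∧
      c * (X * Real.log X) ≤ P.card := by
  obtain ⟨J, hJ⟩ : ∃ J : Fin k → Fin N, ∃ x y : Fin N → ℂ, InV M (G * mc M J) x y := by
    obtain ⟨x, y, h1, h2, h3, h4⟩ := hG
    rw [← rv_tr] at h3
    obtain ⟨J, hJ⟩ := exists_minor' (B := AM (tr M) y) h3
    refine ⟨J, x, y, h1, h2, ?_, ?_⟩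
    · rw [← rv_tr]
      exact h3
    · rw [evz_mul, evz_mc]
      exact mul_ne_zero h4 hJ
  have hGc : ∀ x y : Fin N → ℤ, evz (G * mc M J) (two x y) ≠ 0 →
      LinearIndependent ℤ (cv M y) := by
    intro x y h
    rw [evz_mul, evz_mc] at h
    have h1 := indep_of_det (right_ne_zero_of_mul h)
    rw [← rv_tr]
    exact h1
  obtain ⟨c, L₀, hc, hL1, h⟩ := lower_nat hk hk2 hJ hGc
  refine ⟨c / 4, 2 ^ L₀ + 1, by positivity, by
    have : (0 : ℝ) < 2 ^ L₀ := by positivity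
    linarith, ?_⟩
  intro X hX
  have hp : (1 : ℝ) ≤ 2 ^ L₀ := one_le_pow₀ (by norm_num)
  have hX1 : 1 ≤ X := by linarith
  set B := ⌊X⌋₊ with hB
  have hBX : (B : ℝ) ≤ X := Nat.floor_le (by linarith)
  have hXB : X < B + 1 := Nat.lt_floor_add_one X
  have hB1 : 2 ^ L₀ ≤ B := by
    apply Nat.le_floor
    push_cast
    linarith
  have hB0 : B ≠ 0 := by
    have : 0 < 2 ^ L₀ := by positivity
    omega
  have hLL : L₀ ≤ Nat.log 2 B := Nat.le_log_of_pow_le (by norm_num) hB1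
  obtain ⟨P, hP, hPc⟩ := h B hLL
  refine ⟨P, ?_, ?_⟩
  · intro t ht'
    obtain ⟨a1, a2, ⟨a3, a4, a6, a7⟩, a5⟩ := hP t ht'
    rw [evz_mul] at a7
    exact ⟨a1, a2, ⟨a3, a4, a6, left_ne_zero_of_mul a7⟩, a5.trans hBX⟩
  · refine le_trans ?_ hPc
    set L := Nat.log 2 B with hL
    have hL1' : (1 : ℝ) ≤ L := by exact_mod_cast hL1.trans hLL
    have h4 : B + 1 ≤ 2 ^ (L + 1) := Nat.lt_pow_succ_log_self (by norm_num) B
    have h5 : X ≤ (2 : ℝ) ^ (L + 1) := by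
      have : ((B : ℝ) + 1) ≤ (2 : ℝ) ^ (L + 1) := by exact_mod_cast h4
      linarith
    have h6 : Real.log X ≤ 2 * L := by
      calc Real.log X ≤ Real.log ((2 : ℝ) ^ (L + 1)) := Real.log_le_log (by linarith) h5
        _ = ((L + 1 : ℕ) : ℝ) * Real.log 2 := by rw [Real.log_pow]
        _ ≤ ((L + 1 : ℕ) : ℝ) * 1 := by
            gcongr
            have := Real.log_two_lt_d9
            linarith
        _ ≤ 2 * L := by
            push_cast
            linarith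
    have h7 : 0 ≤ Real.log X := Real.log_nonneg hX1
    have hB1' : (1 : ℝ) ≤ B := by exact_mod_cast Nat.one_le_iff_ne_zero.2 hB0
    have h9 : X ≤ 2 * B := by linarith
    calc c / 4 * (X * Real.log X) ≤ c / 4 * ((2 * B) * (2 * (L : ℝ))) := by gcongr
      _ = c * (B * (L : ℝ)) := by ring

end Pool.Agent.H548.BK
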