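import Mathlib
import Pool.Agent.H548.BK.Low
import Pool.Agent.H548.BL.Main
import Pool.Agent.H548.BL.Geo

/-! Both bounds for the anticanonical height. -/

namespace Pool.Agent.H548.BK

open Finset Matrix
open Pool.Agent.H548.WM (ht bx mem_bx ht_pos Rep)
open Pool.Agent.H548.BL (rv cv Inc Smooth FinZeros fuj fuj_eq rep_ne)

/-- The rational points of `U` outside of the hypersurface `G = 0` of anticanonical height at
most `B`. -/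
def Pts {k N : ℕ} (M : Fin k → Matrix (Fin N) (Fin N) ℤ) (G : MvPolynomial (Fin N ⊕ Fin N) ℤ)
    (B : ℝ) : Set ((Fin N → ℤ) × (Fin N → ℤ)) :=
  {t | Rep t.1 ∧ Rep t.2 ∧ InV M G t.1 t.2 ∧
    (ht t.1 : ℝ) ^ (N - k) * (ht t.2 : ℝ) ^ (N - k) ≤ B}

theorem fuj_one {n : ℕ} (hn : 1 ≤ n) : fuj n ![(n : ℝ), n] = 1 := by
  have e1 : (0 : ℝ) < n := by exact_mod_cast hn
  rw [fuj_eq _ _ (by
    intro i
    fin_cases i
    · exact e1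
    · exact e1)]
  show max ((n : ℝ) / n) ((n : ℝ) / n) = 1
  rw [div_self e1.ne', max_self]

theorem finite_pts {k N : ℕ} (hkN : k + 1 ≤ N) (M : Fin k → Matrix (Fin N) (Fin N) ℤ)
    (G : MvPolynomial (Fin N ⊕ Fin N) ℤ) (B : ℝ) : (Pts M G B).Finite := by
  apply (((bx N ⌊B⌋₊) ×ˢ (bx N ⌊B⌋₊)).finite_toSet).subset
  rintro t ⟨a1, a2, -, a3⟩
  have n0 : (1 : ℝ) ≤ ht t.1 := by exact_mod_cast ht_pos (rep_ne a1)
  have n1 : (1 : ℝ) ≤ ht t.2 := by exact_mod_cast ht_pos (rep_ne a2)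
  have m0 : (ht t.1 : ℝ) ≤ (ht t.1 : ℝ) ^ (N - k) := le_self_pow₀ n0 (by omega)
  have m1 : (ht t.2 : ℝ) ≤ (ht t.2 : ℝ) ^ (N - k) := le_self_pow₀ n1 (by omega)
  rw [mem_coe, mem_product, mem_bx, mem_bx]
  constructor
  · apply Nat.le_floor
    nlinarith
  · apply Nat.le_floor
    nlinarith

theorem low {k N : ℕ} (hk : 1 ≤ k) (hkN : k + 2 ≤ N) {M : Fin k → Matrix (Fin N) (Fin N) ℤ}
    {G : MvPolynomial (Fin N ⊕ Fin N) ℤ} (hG : ∃ x y : Fin N → ℂ, InV M G x y) :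
    ∃ c B₀ : ℝ, 0 < c ∧ ∀ B : ℝ, B₀ ≤ B → c * B * Real.log B ≤ ((Pts M G B).ncard : ℝ) := by
  obtain ⟨c, B₀, hc, hB₀, h⟩ := lower hk hkN hG
  refine ⟨c, B₀, hc, fun B hB => ?_⟩
  obtain ⟨P, hP, hPc⟩ := h B hB
  have h4 : (↑P : Set _) ⊆ Pts M G B := by
    intro t ht'
    exact hP t ht'
  have h5 := Set.ncard_le_ncard h4 (finite_pts (by omega) M G B)
  rw [Set.ncard_coe_finset] at h5
  calc c * B * Real.log B = c * (B * Real.log B) := by ring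
    _ ≤ (P.card : ℝ) := hPc
    _ ≤ ((Pts M G B).ncard : ℝ) := by exact_mod_cast h5

theorem up {k N : ℕ} (hk : 1 ≤ k) (hkN : 2 * k ≤ N) {M : Fin k → Matrix (Fin N) (Fin N) ℤ}
    (hs : Smooth M) (hf : FinZeros M) (G : MvPolynomial (Fin N ⊕ Fin N) ℤ) (ε : ℝ) (hε : 0 < ε) :
    ∃ C : ℝ, ∀ B : ℝ, 1 ≤ B → ((Pts M G B).ncard : ℝ) ≤ C * B ^ (1 + ε) := by
  have hn : 1 ≤ N - k := by omega
  have hn0 : (0 : ℝ) < ((N - k : ℕ) : ℝ) := by exact_mod_cast hn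
  set l : Fin 2 → ℝ := ![((N - k : ℕ) : ℝ), ((N - k : ℕ) : ℝ)] with hl
  have hl0 : ∀ i, 0 < l i := by
    intro i
    fin_cases i
    · exact hn0
    · exact hn0
  have hup := Pool.Agent.H548.BL.upper M (by omega) (fun ε hε =>
    Pool.Agent.H548.BL.box hs hf hk hkN ε hε) l hl0
  have hf1 : fuj (N - k) l = 1 := fuj_one hn
  rw [hf1] at hup
  have hsub : ∀ B : ℝ, Pts M G B ⊆ {t : (Fin N → ℤ) × (Fin N → ℤ) | Rep t.1 ∧ Rep t.2 ∧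
        Inc M t.1 t.2 ∧ LinearIndependent ℤ (rv M t.1) ∧ LinearIndependent ℤ (cv M t.2) ∧
        (ht t.1 : ℝ) ^ l 0 * (ht t.2 : ℝ) ^ l 1 ≤ B} := by
    rintro B t ⟨a1, a2, ⟨a3, a4, a5, -⟩, a6⟩
    refine ⟨a1, a2, a3, a4, a5, ?_⟩
    have e1 : (ht t.1 : ℝ) ^ l 0 = (ht t.1 : ℝ) ^ (N - k) := Real.rpow_natCast _ _
    have e2 : (ht t.2 : ℝ) ^ l 1 = (ht t.2 : ℝ) ^ (N - k) := Real.rpow_natCast _ _
    rw [e1, e2]
    exact a6
  obtain ⟨C, hC⟩ := hup ε hε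
  refine ⟨C, fun B hB => ?_⟩
  refine le_trans ?_ (hC B hB).2
  exact_mod_cast Set.ncard_le_ncard (hsub B) (hC B hB).1

end Pool.Agent.H548.BK
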